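import Pool.Agent.Lib.MP_10cdc7_ag.Defs

/-!
# Star charts: restriction, interior points of legs, comparison of two charts
-/

open Set Metric

namespace Pool.Agent.AbelPrym

universe u v

variable {X : Type u} [MetricSpace X]

namespace StarChart

variable {x : X} (c : StarChart X x)

lemma dist_leg_self (i : Fin c.n) {t : ℝ} (ht : t ∈ Ico 0 c.r) : dist (c.leg i t) x = t := by
  have h := c.dist_same i t ht 0 ⟨le_refl _, c.r_pos⟩
  rw [c.leg_zero i] at h
  rw [h, sub_zero, abs_of_nonneg ht.1]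

lemma leg_mem_ball (i : Fin c.n) {t : ℝ} (ht : t ∈ Ico 0 c.r) {ρ : ℝ} (h : t < ρ) :
    c.leg i t ∈ ball x ρ := by
  rw [mem_ball, c.dist_leg_self i ht]; exact h

lemma leg_inj {i j : Fin c.n} {s t : ℝ} (hs : s ∈ Ico 0 c.r) (ht : t ∈ Ico 0 c.r) (hs0 : 0 < s)
    (h : c.leg i s = c.leg j t) : i = j ∧ s = t := by
  have h1 : s = t := by
    rw [← c.dist_leg_self i hs, ← c.dist_leg_self j ht, h]
  refine ⟨?_, h1⟩
  by_contra hij
  have h2 := c.dist_diff i j hij s hs t ht
  rw [h, dist_self] at h2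
  linarith [ht.1]

/-- Restriction of a chart to a smaller radius. -/
def restrict (ρ : ℝ) (h0 : 0 < ρ) (h1 : ρ ≤ c.r) : StarChart X x where
  n := c.n
  r := ρ
  r_pos := h0
  leg := c.leg
  leg_zero := c.leg_zero
  dist_same := fun i s hs t ht => c.dist_same i s ⟨hs.1, lt_of_lt_of_le hs.2 h1⟩ t
    ⟨ht.1, lt_of_lt_of_le ht.2 h1⟩
  dist_diff := fun i j hij s hs t ht => c.dist_diff i j hij s ⟨hs.1, lt_of_lt_of_le hs.2 h1⟩ t
    ⟨ht.1, lt_of_lt_of_le ht.2 h1⟩
  exhaust := by
    intro y hy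
    rcases c.exhaust y (lt_of_lt_of_le hy h1) with h | ⟨i, t, ht, rfl⟩
    · exact Or.inl h
    · refine Or.inr ⟨i, t, ⟨ht.1, ?_⟩, rfl⟩
      rwa [c.dist_leg_self i ht] at hy

lemma exhaust_pos {y : X} (hy : dist y x < c.r) (hne : y ≠ x) :
    ∃ i, ∃ t ∈ Ioo 0 c.r, y = c.leg i t ∧ dist y x = t := by
  rcases c.exhaust y hy with h | ⟨i, t, ht, rfl⟩
  · exact absurd h hne
  · have h1 := c.dist_leg_self i ht
    refine ⟨i, t, ⟨?_, ht.2⟩, rfl, h1⟩
    rcases lt_or_eq_of_le ht.1 with h | h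
    · exact h
    · exfalso; apply hne; rw [← dist_eq_zero, h1, ← h]

/-- The chart with two legs at a point in the interior of a leg. The leg `0` points away from
the centre, the leg `1` towards it. -/
def interior (i : Fin c.n) (t : ℝ) (ht : t ∈ Ioo 0 c.r) : StarChart X (c.leg i t) where
  n := 2
  r := min t (c.r - t)
  r_pos := lt_min ht.1 (by linarith [ht.2])
  leg := ![fun u => c.leg i (t + u), fun u => c.leg i (t - u)]
  leg_zero := by
    intro j; fin_cases j <;> simp
  dist_same := by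
    intro j u hu v hv
    have hu1 := lt_of_lt_of_le hu.2 (min_le_left _ _)
    have hu2 := lt_of_lt_of_le hu.2 (min_le_right _ _)
    have hv1 := lt_of_lt_of_le hv.2 (min_le_left _ _)
    have hv2 := lt_of_lt_of_le hv.2 (min_le_right _ _)
    have hu0 := hu.1
    have hv0 := hv.1
    fin_cases j
    · change dist (c.leg i (t + u)) (c.leg i (t + v)) = _
      rw [c.dist_same i (t + u) ⟨by linarith, by linarith⟩ (t + v) ⟨by linarith, by linarith⟩]
      congr 1; ring
    · change dist (c.leg i (t - u)) (c.leg i (t - v)) = _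
      rw [c.dist_same i (t - u) ⟨by linarith, by linarith⟩ (t - v) ⟨by linarith, by linarith⟩]
      rw [abs_sub_comm]; congr 1; ring
  dist_diff := by
    intro j k hjk u hu v hv
    have hu1 := lt_of_lt_of_le hu.2 (min_le_left _ _)
    have hu2 := lt_of_lt_of_le hu.2 (min_le_right _ _)
    have hv1 := lt_of_lt_of_le hv.2 (min_le_left _ _)
    have hv2 := lt_of_lt_of_le hv.2 (min_le_right _ _)
    have hu0 := hu.1
    have hv0 := hv.1
    fin_cases j <;> fin_cases k
    · exact absurd rfl hjk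
    · change dist (c.leg i (t + u)) (c.leg i (t - v)) = _
      rw [c.dist_same i (t + u) ⟨by linarith, by linarith⟩ (t - v) ⟨by linarith, by linarith⟩]
      rw [abs_of_nonneg (by linarith)]; ring
    · change dist (c.leg i (t - u)) (c.leg i (t + v)) = _
      rw [c.dist_same i (t - u) ⟨by linarith, by linarith⟩ (t + v) ⟨by linarith, by linarith⟩]
      rw [abs_of_nonpos (by linarith)]; ring
    · exact absurd rfl hjk
  exhaust := by
    intro z hz
    have hz1 := lt_of_lt_of_le hz (min_le_left _ _)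
    have hz2 := lt_of_lt_of_le hz (min_le_right _ _)
    have htI : t ∈ Ico 0 c.r := ⟨ht.1.le, ht.2⟩
    have h1 : dist z x < c.r := by
      have := dist_triangle z (c.leg i t) x
      rw [c.dist_leg_self i htI] at this
      linarith
    rcases c.exhaust z h1 with h | ⟨j, v, hv, rfl⟩
    · exfalso
      rw [h, dist_comm, c.dist_leg_self i htI] at hz1
      exact lt_irrefl _ hz1
    · by_cases hij : j = i
      · subst hij
        rw [c.dist_same j v hv t htI] at hz1 hz2 hz
        right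
        rcases le_total t v with h | h
        · refine ⟨0, v - t, ⟨by linarith, ?_⟩, ?_⟩
          · rwa [abs_of_nonneg (by linarith)] at hz
          · simp
        · refine ⟨1, t - v, ⟨by linarith, ?_⟩, ?_⟩
          · rw [abs_of_nonpos (by linarith)] at hz; linarith
          · simp
      · exfalso
        rw [c.dist_diff j i hij v hv t htI] at hz1
        linarith [hv.1]

/-- Comparison of two charts at the same point. -/
lemma exists_leg_eq (c' : StarChart X x) (i : Fin c.n) :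
    ∃ j : Fin c'.n, ∀ t ∈ Ico 0 (min c.r c'.r), c.leg i t = c'.leg j t := by
  have hm : 0 < min c.r c'.r := lt_min c.r_pos c'.r_pos
  have key : ∀ t ∈ Ioo 0 (min c.r c'.r), ∃ j, c.leg i t = c'.leg j t := by
    intro t ht
    have ht1 : t ∈ Ico 0 c.r := ⟨ht.1.le, lt_of_lt_of_le ht.2 (min_le_left _ _)⟩
    have h1 := c.dist_leg_self i ht1
    have h2 : dist (c.leg i t) x < c'.r := by
      rw [h1]; exact lt_of_lt_of_le ht.2 (min_le_right _ _)
    have hne : c.leg i t ≠ x := by
      intro h; rw [h, dist_self] at h1; linarith [ht.1]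
    obtain ⟨j, s, _, h3, h4⟩ := c'.exhaust_pos h2 hne
    rw [h1] at h4
    subst h4
    exact ⟨j, h3⟩
  set t0 := min c.r c'.r / 2 with ht0
  have ht0' : t0 ∈ Ioo 0 (min c.r c'.r) := ⟨by positivity, by linarith⟩
  obtain ⟨j, hj⟩ := key t0 ht0'
  refine ⟨j, ?_⟩
  intro t ht
  rcases eq_or_lt_of_le ht.1 with h0 | h0
  · rw [← h0, c.leg_zero, c'.leg_zero]
  · obtain ⟨k, hk⟩ := key t ⟨h0, ht.2⟩
    by_cases hjk : j = k
    · rw [hjk, hk]
    · exfalso
      have e1 := c.dist_same i t0 ⟨ht0'.1.le, lt_of_lt_of_le ht0'.2 (min_le_left _ _)⟩ t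
        ⟨ht.1, lt_of_lt_of_le ht.2 (min_le_left _ _)⟩
      have e2 := c'.dist_diff j k hjk t0 ⟨ht0'.1.le, lt_of_lt_of_le ht0'.2 (min_le_right _ _)⟩ t
        ⟨ht.1, lt_of_lt_of_le ht.2 (min_le_right _ _)⟩
      rw [hj, hk, e2] at e1
      have h3 : |t0 - t| < t0 + t := by
        rw [abs_lt]; constructor <;> linarith [ht0'.1]
      linarith

lemma exists_equiv (c' : StarChart X x) :
    ∃ σ : Fin c.n ≃ Fin c'.n, ∀ i, ∀ t ∈ Ico 0 (min c.r c'.r), c.leg i t = c'.leg (σ i) t := by
  have hm : 0 < min c.r c'.r := lt_min c.r_pos c'.r_pos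
  choose f hf using fun i => c.exists_leg_eq c' i
  choose g hg using fun i => c'.exists_leg_eq c i
  set t0 := min c.r c'.r / 2 with ht0
  have ht0' : t0 ∈ Ioo 0 (min c.r c'.r) := ⟨by positivity, by linarith⟩
  have ht0c : t0 ∈ Ico 0 (min c.r c'.r) := ⟨ht0'.1.le, ht0'.2⟩
  have ht0d : t0 ∈ Ico 0 (min c'.r c.r) := by rw [min_comm]; exact ht0c
  have h1 : t0 ∈ Ico 0 c.r := ⟨ht0'.1.le, lt_of_lt_of_le ht0'.2 (min_le_left _ _)⟩
  have h2 : t0 ∈ Ico 0 c'.r := ⟨ht0'.1.le, lt_of_lt_of_le ht0'.2 (min_le_right _ _)⟩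
  refine ⟨⟨f, g, ?_, ?_⟩, hf⟩
  · intro i
    have := (hf i t0 ht0c).trans (hg (f i) t0 ht0d)
    exact (c.leg_inj h1 h1 ht0'.1 this).1.symm
  · intro j
    have := (hg j t0 ht0d).trans (hf (g j) t0 ht0c)
    exact (c'.leg_inj h2 h2 ht0'.1 this).1.symm

end StarChart

end Pool.Agent.AbelPrym
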