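import Pool.Agent.Lib.MP_10cdc7_ag.Level

/-!
# Free double covers: the involution, transport of charts
-/

open Set Metric Filter Topology

namespace Pool.Agent.AbelPrym

universe u v

variable {X : Type u} {Y : Type v} [MetricSpace X] [MetricSpace Y] {π : X → Y} {ι : X → X}

namespace IsFreeDoubleCover

variable (h : IsFreeDoubleCover π ι)

include h

lemma fibre {x y : X} (hxy : π y = π x) : y = x ∨ y = ι x := by
  obtain ⟨a, b, hab, hs⟩ := Set.ncard_eq_two.1 (h.two_to_one (π x))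
  have h1 : x ∈ π ⁻¹' {π x} := rfl
  have h2 : ι x ∈ π ⁻¹' {π x} := (h.swap x).2
  have h3 : y ∈ π ⁻¹' {π x} := hxy
  rw [hs] at h1 h2 h3
  have hne := (h.swap x).1
  simp only [mem_insert_iff, mem_singleton_iff] at h1 h2 h3
  rcases h1 with h1 | h1 <;> rcases h2 with h2 | h2 <;> rcases h3 with h3 | h3
  · exact Or.inl (h3.trans h1.symm)
  · exact absurd (h2.trans h1.symm) hne
  · exact Or.inl (h3.trans h1.symm)
  · exact Or.inr (h3.trans h2.symm)
  · exact Or.inr (h3.trans h2.symm)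
  · exact Or.inl (h3.trans h1.symm)
  · exact absurd (h2.trans h1.symm) hne
  · exact Or.inl (h3.trans h1.symm)

lemma invol (x : X) : ι (ι x) = x := by
  have h1 : π (ι (ι x)) = π x := (h.swap (ι x)).2.trans (h.swap x).2
  rcases h.fibre h1 with h2 | h2
  · exact h2
  · exact absurd h2 (h.swap (ι x)).1

lemma ne (x : X) : ι x ≠ x := (h.swap x).1

lemma exists_local_aux (x : X) : ∃ ρ > 0, ∀ y ∈ ball x ρ, ι y ∈ ball (ι x) ρ ∧
    ∀ z ∈ ball x ρ, dist (ι y) (ι z) = dist y z := by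
  obtain ⟨r1, hr1, himg1, hiso1⟩ := h.local_isometry x
  obtain ⟨r2, hr2, himg2, hiso2⟩ := h.local_isometry (ι x)
  have hd : 0 < dist x (ι x) := dist_pos.2 (h.ne x).symm
  set ρ := min (min r1 r2) (dist x (ι x) / 2) with hρ
  have hρ1 : ρ ≤ r1 := (min_le_left _ _).trans (min_le_left _ _)
  have hρ2 : ρ ≤ r2 := (min_le_left _ _).trans (min_le_right _ _)
  have hρ3 : ρ ≤ dist x (ι x) / 2 := min_le_right _ _
  have hρ0 : 0 < ρ := lt_min (lt_min hr1 hr2) (by linarith)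
  have key : ∀ y ∈ ball x ρ, ι y ∈ ball (ι x) ρ := by
    intro y hy
    have hy1 : y ∈ ball x r1 := ball_subset_ball hρ1 hy
    have e1 : dist (π y) (π x) = dist y x := hiso1 y hy1 x (mem_ball_self hr1)
    have e2 : π y ∈ ball (π (ι x)) r2 := by
      rw [(h.swap x).2, mem_ball, e1]
      exact lt_of_lt_of_le hy hρ2
    rw [← himg2] at e2
    obtain ⟨z, hz, hzy⟩ := e2
    have e3 : dist z (ι x) = dist y x := by
      rw [← hiso2 z hz (ι x) (mem_ball_self hr2), hzy, (h.swap x).2, e1]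
    have e4 : z = ι y := by
      rcases h.fibre hzy with h1 | h1
      · exfalso
        rw [h1] at e3
        have := dist_triangle x y (ι x)
        rw [e3, dist_comm x y] at this
        rw [mem_ball] at hy
        linarith
      · exact h1
    rw [← e4, mem_ball, e3]
    exact hy
  refine ⟨ρ, hρ0, fun y hy => ⟨key y hy, fun z hz => ?_⟩⟩
  rw [← hiso2 (ι y) (ball_subset_ball hρ2 (key y hy)) (ι z) (ball_subset_ball hρ2 (key z hz)),
    (h.swap y).2, (h.swap z).2,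
    hiso1 y (ball_subset_ball hρ1 hy) z (ball_subset_ball hρ1 hz)]

/-- A radius on which `ι` is an isometry near `x` and near `ι x`. -/
lemma exists_local (x : X) : ∃ ρ > 0, ∀ ρ' ≤ ρ,
    (∀ y ∈ ball x ρ', ι y ∈ ball (ι x) ρ') ∧ (∀ y ∈ ball (ι x) ρ', ι y ∈ ball x ρ') ∧
    (∀ y ∈ ball x ρ', ∀ z ∈ ball x ρ', dist (ι y) (ι z) = dist y z) ∧
    (∀ y ∈ ball (ι x) ρ', ∀ z ∈ ball (ι x) ρ', dist (ι y) (ι z) = dist y z) := by
  obtain ⟨ρ1, h1, H1⟩ := h.exists_local_aux x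
  obtain ⟨ρ2, h2, H2⟩ := h.exists_local_aux (ι x)
  refine ⟨min ρ1 ρ2, lt_min h1 h2, fun ρ' hρ' => ?_⟩
  have e1 : ρ' ≤ ρ1 := hρ'.trans (min_le_left _ _)
  have e2 : ρ' ≤ ρ2 := hρ'.trans (min_le_right _ _)
  refine ⟨?_, ?_, ?_, ?_⟩
  · intro y hy
    rw [mem_ball, (H1 y (ball_subset_ball e1 hy)).2 x (mem_ball_self h1)]
    exact hy
  · intro y hy
    have := (H2 y (ball_subset_ball e2 hy)).2 (ι x) (mem_ball_self h2)
    rw [h.invol] at this
    rw [mem_ball, this]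
    exact hy
  · intro y hy z hz
    exact (H1 y (ball_subset_ball e1 hy)).2 z (ball_subset_ball e1 hz)
  · intro y hy z hz
    exact (H2 y (ball_subset_ball e2 hy)).2 z (ball_subset_ball e2 hz)

/-- Transport of a chart by the involution. -/
lemma exists_chart (x : X) (c : StarChart X x) : ∃ ρ, ∃ c' : StarChart X (ι x), ∃ e : c'.n = c.n,
    ρ ≤ c.r ∧ c'.r = ρ ∧
      ∀ i, ∀ t ∈ Ico 0 ρ, c'.leg i t = ι (c.leg (Fin.cast e i) t) := by
  obtain ⟨ρ0, hρ0, H⟩ := h.exists_local x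
  set ρ := min ρ0 c.r with hρ
  have hρpos : 0 < ρ := lt_min hρ0 c.r_pos
  have hρc : ρ ≤ c.r := min_le_right _ _
  obtain ⟨H1, H2, H3, H4⟩ := H ρ (min_le_left _ _)
  refine ⟨ρ, ⟨c.n, ρ, hρpos, fun i t => ι (c.leg i t), ?_, ?_, ?_, ?_⟩, rfl, hρc, rfl, ?_⟩
  · intro i
    rw [c.leg_zero]
  · intro i s hs t ht
    rw [H3 _ (c.leg_mem_ball i ⟨hs.1, hs.2.trans_le hρc⟩ hs.2) _
      (c.leg_mem_ball i ⟨ht.1, ht.2.trans_le hρc⟩ ht.2)]
    exact c.dist_same i s ⟨hs.1, hs.2.trans_le hρc⟩ t ⟨ht.1, ht.2.trans_le hρc⟩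
  · intro i j hij s hs t ht
    rw [H3 _ (c.leg_mem_ball i ⟨hs.1, hs.2.trans_le hρc⟩ hs.2) _
      (c.leg_mem_ball j ⟨ht.1, ht.2.trans_le hρc⟩ ht.2)]
    exact c.dist_diff i j hij s ⟨hs.1, hs.2.trans_le hρc⟩ t ⟨ht.1, ht.2.trans_le hρc⟩
  · intro y hy
    have h1 : ι y ∈ ball x ρ := H2 y hy
    rcases c.exhaust (ι y) (lt_of_lt_of_le h1 hρc) with h2 | ⟨i, t, ht, h2⟩
    · left
      rw [← h2, h.invol]
    · right
      refine ⟨i, t, ⟨ht.1, ?_⟩, ?_⟩
      · rw [mem_ball, h2, c.dist_leg_self i ht] at h1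
        exact h1
      · rw [← h2, h.invol]
  · intro i t _
    rfl

lemma continuous_invol : Continuous ι := by
  rw [continuous_iff_continuousAt]
  intro x
  rw [Metric.continuousAt_iff]
  intro ε hε
  obtain ⟨ρ, hρ, H⟩ := h.exists_local x
  refine ⟨min ρ ε, lt_min hρ hε, fun y hy => ?_⟩
  obtain ⟨-, -, H3, -⟩ := H ρ le_rfl
  rw [H3 y (lt_of_lt_of_le hy (min_le_left _ _)) x (mem_ball_self hρ)]
  exact lt_of_lt_of_le hy (min_le_right _ _)

lemma isOpenMap : IsOpenMap π := by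
  intro S hS
  rw [Metric.isOpen_iff] at hS ⊢
  rintro _ ⟨x, hx, rfl⟩
  obtain ⟨ε, hε, hb⟩ := hS x hx
  obtain ⟨r, hr, himg, hiso⟩ := h.local_isometry x
  refine ⟨min ε r, lt_min hε hr, ?_⟩
  intro y hy
  have h1 : y ∈ ball (π x) r := ball_subset_ball (min_le_right _ _) hy
  rw [← himg] at h1
  obtain ⟨z, hz, rfl⟩ := h1
  refine ⟨z, hb ?_, rfl⟩
  have h2 : dist (π z) (π x) < ε := lt_of_lt_of_le hy (min_le_left _ _)
  rw [hiso z hz x (mem_ball_self hr)] at h2
  exact h2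

/-- Pull-back of a rational function by the involution. -/
lemma isDivisorOf_comp {f : X → ℝ} {D : X → ℤ} (hf : IsDivisorOf f D) :
    IsDivisorOf (f ∘ ι) (D ∘ ι) := by
  intro x
  obtain ⟨c, s, h1, h2⟩ := hf (ι x)
  obtain ⟨ρ, c', e, hρ, hr, hleg⟩ := h.exists_chart (ι x) c
  have hx := h.invol x
  -- transport the chart to the point `x`
  have key : ∀ w, ι (ι x) = w → ∃ c'' : StarChart X w, ∃ s'' : Fin c''.n → ℤ,
      (∀ i, ∀ t ∈ Ico 0 c''.r, (f ∘ ι) (c''.leg i t) = (f ∘ ι) w + s'' i * t) ∧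
        D (ι w) = ∑ i, s'' i := by
    rintro w rfl
    refine ⟨c', fun i => s (Fin.cast e i), ?_, ?_⟩
    · intro i t ht
      rw [hr] at ht
      rw [hleg i t ht]
      simp only [Function.comp_apply, h.invol]
      exact h1 _ t ⟨ht.1, ht.2.trans_le hρ⟩
    · rw [h.invol, h2]
      exact (Equiv.sum_comp (finCongr e) s).symm
  exact key x hx

end IsFreeDoubleCover

lemma IsDivisorOf.add {f g : X → ℝ} {D E : X → ℤ} (hf : IsDivisorOf f D)
    (hg : IsDivisorOf g E) : IsDivisorOf (fun x => f x + g x) (fun x => D x + E x) := by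
  intro x
  obtain ⟨c, s, h1, h2⟩ := hf x
  obtain ⟨c', s', h1', h2'⟩ := hg x
  obtain ⟨σ, hσ⟩ := c.exists_equiv c'
  refine ⟨c.restrict (min c.r c'.r) (lt_min c.r_pos c'.r_pos) (min_le_left _ _),
    fun i => s i + s' (σ i), ?_, ?_⟩
  · intro i t ht
    change f (c.leg i t) + g (c.leg i t) = f x + g x + ((s i + s' (σ i) : ℤ) : ℝ) * t
    rw [h1 i t ⟨ht.1, lt_of_lt_of_le ht.2 (min_le_left _ _)⟩, hσ i t ht,
      h1' (σ i) t ⟨ht.1, lt_of_lt_of_le ht.2 (min_le_right _ _)⟩]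
    push_cast; ring
  · change D x + E x = ∑ i : Fin c.n, (s i + s' (σ i))
    rw [Finset.sum_add_distrib, Equiv.sum_comp σ s', h2, h2']

lemma IsDivisorOf.neg {f : X → ℝ} {D : X → ℤ} (hf : IsDivisorOf f D) :
    IsDivisorOf (fun x => - f x) (fun x => - D x) := by
  intro x
  obtain ⟨c, s, h1, h2⟩ := hf x
  refine ⟨c, fun i => - s i, ?_, ?_⟩
  · intro i t ht
    change -f (c.leg i t) = -f x + ((-s i : ℤ) : ℝ) * t
    rw [h1 i t ht]; push_cast; ring
  · change -D x = ∑ i, (-s i)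
    rw [Finset.sum_neg_distrib, h2]

lemma LinEquiv.symm {D E : X → ℤ} (h : LinEquiv D E) : LinEquiv E D := by
  obtain ⟨f, hf⟩ := h
  refine ⟨fun x => - f x, ?_⟩
  have := hf.neg
  convert this using 1
  ext x
  simp

/-- The composition of a rational function with a piecewise linear function of slopes `α` (to
the right) and `β` (to the left) at the value in question. -/
lemma RatData.comp_chart (F : RatData X) (z : X) (φ : ℝ → ℝ) (α β : ℤ) (δ : ℝ) (hδ : 0 < δ)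
    (hα : ∀ w, 0 ≤ w → w < δ → φ (F.f z + w) = φ (F.f z) + α * w)
    (hβ : ∀ w, 0 ≤ w → w < δ → φ (F.f z - w) = φ (F.f z) - β * w)
    (g : X → ℝ) (ρ : ℝ) (hρ : 0 < ρ) (hg : ∀ w ∈ ball z ρ, g w = φ (F.f w)) :
    ∃ c : StarChart X z, ∃ s : Fin c.n → ℤ,
      (∀ i, ∀ t ∈ Ico 0 c.r, g (c.leg i t) = g z + s i * t) ∧
        α * F.U z - β * F.L z = ∑ i, s i := by
  set K : ℝ := ∑ i, |(F.s z i : ℝ)| with hK
  have hK0 : 0 ≤ K := Finset.sum_nonneg fun i _ => abs_nonneg _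
  set r' := min (min (F.c z).r ρ) (δ / (K + 1)) with hr'
  have hr1 : r' ≤ (F.c z).r := (min_le_left _ _).trans (min_le_left _ _)
  have hr2 : r' ≤ ρ := (min_le_left _ _).trans (min_le_right _ _)
  have hr3 : r' ≤ δ / (K + 1) := min_le_right _ _
  have hr0 : 0 < r' := lt_min (lt_min (F.c z).r_pos hρ) (by positivity)
  refine ⟨(F.c z).restrict r' hr0 hr1,
    fun i => α * max (F.s z i) 0 - β * max (-F.s z i) 0, ?_, ?_⟩
  · intro i t ht
    change g ((F.c z).leg i t) =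
      g z + ((α * max (F.s z i) 0 - β * max (-F.s z i) 0 : ℤ) : ℝ) * t
    have ht0 : 0 ≤ t := ht.1
    have ht1 : t < r' := ht.2
    have htc : t ∈ Ico 0 (F.c z).r := ⟨ht0, lt_of_lt_of_le ht1 hr1⟩
    rw [hg _ ((F.c z).leg_mem_ball i htc (lt_of_lt_of_le ht1 hr2)), hg z (mem_ball_self hρ),
      F.lin z i t htc]
    have h1 : |(F.s z i : ℝ)| ≤ K := by
      rw [hK]
      exact Finset.single_le_sum (f := fun i => |(F.s z i : ℝ)|) (fun i _ => abs_nonneg _)
        (Finset.mem_univ i)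
    have h2 : t * (K + 1) < δ := by
      have := lt_of_lt_of_le ht1 hr3
      rwa [lt_div_iff₀ (by positivity)] at this
    have h3 : |(F.s z i : ℝ)| * t < δ := by
      have := mul_le_mul_of_nonneg_right h1 ht0
      nlinarith
    rcases le_total 0 (F.s z i) with h | h
    · have hR : (0 : ℝ) ≤ F.s z i := by exact_mod_cast h
      rw [abs_of_nonneg hR] at h3
      rw [hα _ (mul_nonneg hR ht0) h3, max_eq_left h, max_eq_right (by omega)]
      push_cast; ring
    · have hR : (F.s z i : ℝ) ≤ 0 := by exact_mod_cast h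
      rw [abs_of_nonpos hR] at h3
      have h4 := hβ (-(F.s z i : ℝ) * t) (mul_nonneg (by linarith) ht0) h3
      have h5 : F.f z + F.s z i * t = F.f z - -(F.s z i : ℝ) * t := by ring
      rw [h5, h4, max_eq_right h, max_eq_left (by omega : 0 ≤ -F.s z i)]
      push_cast; ring
  · change α * F.U z - β * F.L z =
      ∑ i : Fin (F.c z).n, (α * max (F.s z i) 0 - β * max (-F.s z i) 0)
    unfold RatData.U RatData.L
    rw [Finset.sum_sub_distrib, ← Finset.mul_sum, ← Finset.mul_sum]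

end Pool.Agent.AbelPrym
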