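import Mathlib

/-!
# Metric graphs, free double covers and the Abel-Prym map of degree one: definitions

Metric graphs are modelled intrinsically, as compact connected metric spaces all of whose points
have a small open ball isometric to a star with finitely many legs.
-/

open Set Metric

namespace Pool.Agent.AbelPrym

universe u v

/-- A star chart at the point `x` of the metric space `X`: an isometry between the open ball of
radius `r` about `x` and the star with `n` legs of length `r` (carrying its path metric), sending
`x` to the centre of the star. The point at distance `t` (`0 ≤ t < r`) from the centre on the leg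
number `i` is `leg i t`. -/
structure StarChart (X : Type u) [MetricSpace X] (x : X) where
  /-- the number of legs, that is the valence of `x` -/
  n : ℕ
  /-- the radius of the star -/
  r : ℝ
  r_pos : 0 < r
  /-- the parametrisation of the legs by the distance to the centre -/
  leg : Fin n → ℝ → X
  leg_zero : ∀ i, leg i 0 = x
  dist_same : ∀ i, ∀ s ∈ Ico 0 r, ∀ t ∈ Ico 0 r, dist (leg i s) (leg i t) = |s - t|
  dist_diff : ∀ i j, i ≠ j → ∀ s ∈ Ico 0 r, ∀ t ∈ Ico 0 r,
    dist (leg i s) (leg j t) = s + t
  exhaust : ∀ y, dist y x < r → y = x ∨ ∃ i, ∃ t ∈ Ico 0 r, y = leg i t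

/-- A metric graph: a compact connected metric space in which every point has a star chart. -/
structure IsMetricGraph (X : Type u) [MetricSpace X] : Prop where
  compact : CompactSpace X
  connected : ConnectedSpace X
  star : ∀ x : X, Nonempty (StarChart X x)

/-- `π : X → Y` is a free double cover (a surjective local isometry which is exactly 2-to-1 at
every point), and `ι` is the involution swapping the two points of each fibre. -/
structure IsFreeDoubleCover {X : Type u} {Y : Type v} [MetricSpace X] [MetricSpace Y]
    (π : X → Y) (ι : X → X) : Prop where
  surjective : Function.Surjective π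
  local_isometry : ∀ x, ∃ r > 0, π '' ball x r = ball (π x) r ∧
    ∀ y ∈ ball x r, ∀ z ∈ ball x r, dist (π y) (π z) = dist y z
  two_to_one : ∀ y, (π ⁻¹' {y}).ncard = 2
  swap : ∀ x, ι x ≠ x ∧ π (ι x) = π x

/-- `f` is a rational function on the metric graph `X` (continuous, piecewise linear with
integer slopes) and `D` is its divisor: around every point `x` there is a star chart on each leg
`i` of which `f` is linear with integer slope `s i`, and `D x` is the sum of these outgoing
slopes. -/
def IsDivisorOf {X : Type u} [MetricSpace X] (f : X → ℝ) (D : X → ℤ) : Prop :=
  ∀ x, ∃ c : StarChart X x, ∃ s : Fin c.n → ℤ,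
    (∀ i, ∀ t ∈ Ico 0 c.r, f (c.leg i t) = f x + s i * t) ∧ D x = ∑ i, s i

/-- Linear equivalence of divisors: the difference is the divisor of a rational function. -/
def LinEquiv {X : Type u} [MetricSpace X] (D D' : X → ℤ) : Prop :=
  ∃ f : X → ℝ, IsDivisorOf f (D - D')

open Classical in
/-- The divisor of degree one given by the point `p`. -/
noncomputable def pt {X : Type u} (p : X) : X → ℤ := fun x => if x = p then 1 else 0

/-- The divisor `p - ι p`; its class is the image of `p` under the Abel-Prym map of degree
one. -/
noncomputable def prymDivisor {X : Type u} (ι : X → X) (p : X) : X → ℤ := pt p - pt (ι p)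

/-- The Abel-Prym map of degree one is finite: all its fibres are finite. -/
def AbelPrymFinite {X : Type u} [MetricSpace X] (ι : X → X) : Prop :=
  ∀ p, {q | LinEquiv (prymDivisor ι q) (prymDivisor ι p)}.Finite

/-- The Abel-Prym map of degree one is injective. -/
def AbelPrymInjective {X : Type u} [MetricSpace X] (ι : X → X) : Prop :=
  ∀ p q, LinEquiv (prymDivisor ι p) (prymDivisor ι q) → p = q

/-- 2-connectedness: removing any one point leaves a connected space. -/
def TwoConnected (Y : Type v) [MetricSpace Y] : Prop :=
  ∀ y : Y, IsPreconnected ({y}ᶜ : Set Y)

end Pool.Agent.AbelPrym
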