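import Pool.Agent.Lib.MP_10cdc7_ag.Charts

/-!
# Rational functions: slopes, continuity, and the flux identity
-/

open Set Metric Filter Topology

namespace Pool.Agent.AbelPrym

universe u v

/-- A rational function together with a chosen linearising chart at every point. -/
structure RatData (X : Type u) [MetricSpace X] where
  f : X → ℝ
  c : ∀ x, StarChart X x
  s : ∀ x, Fin (c x).n → ℤ
  lin : ∀ x i, ∀ t ∈ Ico 0 (c x).r, f ((c x).leg i t) = f x + s x i * t

variable {X : Type u} [MetricSpace X]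

lemma IsDivisorOf.exists_ratData {f : X → ℝ} {D : X → ℤ} (h : IsDivisorOf f D) :
    ∃ F : RatData X, F.f = f ∧ ∀ x, D x = ∑ i, F.s x i := by
  choose c s h1 h2 using h
  exact ⟨⟨f, c, s, h1⟩, rfl, h2⟩

namespace RatData

variable (F : RatData X)

/-- total upward slope -/
def U (x : X) : ℤ := ∑ i, max (F.s x i) 0

/-- total downward slope -/
def L (x : X) : ℤ := ∑ i, max (-F.s x i) 0

/-- the divisor -/
def D (x : X) : ℤ := ∑ i, F.s x i

lemma D_eq (x : X) : F.D x = F.U x - F.L x := by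
  unfold D U L
  rw [← Finset.sum_sub_distrib]
  refine Finset.sum_congr rfl fun i _ => ?_
  rcases le_total 0 (F.s x i) with h | h
  · rw [max_eq_left h, max_eq_right (by omega)]; ring
  · rw [max_eq_right h, max_eq_left (by omega)]; ring

lemma U_nonneg (x : X) : 0 ≤ F.U x := Finset.sum_nonneg fun _ _ => le_max_right _ _

lemma L_nonneg (x : X) : 0 ≤ F.L x := Finset.sum_nonneg fun _ _ => le_max_right _ _

lemma isDivisorOf : IsDivisorOf F.f F.D := fun x => ⟨F.c x, F.s x, F.lin x, rfl⟩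

/-- The negative of a rational function. -/
def neg : RatData X where
  f := fun x => - F.f x
  c := F.c
  s := fun x i => - F.s x i
  lin := by
    intro x i t ht
    rw [F.lin x i t ht]; push_cast; ring

lemma neg_U (x : X) : F.neg.U x = F.L x := rfl

lemma neg_L (x : X) : F.neg.L x = F.U x := by
  unfold L U neg
  simp only [neg_neg]

lemma neg_D (x : X) : F.neg.D x = - F.D x := by
  unfold D neg
  simp only [Finset.sum_neg_distrib]

/-- Chart independence of the slopes. -/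
lemma sum_slopes_eq {x : X} (c' : StarChart X x) (s' : Fin c'.n → ℤ)
    (h : ∀ i, ∀ t ∈ Ico 0 c'.r, F.f (c'.leg i t) = F.f x + s' i * t) (φ : ℤ → ℤ) :
    ∑ i, φ (s' i) = ∑ i, φ (F.s x i) := by
  obtain ⟨σ, hσ⟩ := c'.exists_equiv (F.c x)
  have hm : 0 < min c'.r (F.c x).r := lt_min c'.r_pos (F.c x).r_pos
  set t0 := min c'.r (F.c x).r / 2 with ht0
  have ht0' : t0 ∈ Ioo 0 (min c'.r (F.c x).r) := ⟨by positivity, by linarith⟩
  have h1 : t0 ∈ Ico 0 c'.r := ⟨ht0'.1.le, lt_of_lt_of_le ht0'.2 (min_le_left _ _)⟩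
  have h2 : t0 ∈ Ico 0 (F.c x).r := ⟨ht0'.1.le, lt_of_lt_of_le ht0'.2 (min_le_right _ _)⟩
  have key : ∀ i, s' i = F.s x (σ i) := by
    intro i
    have e1 := h i t0 h1
    have e2 := F.lin x (σ i) t0 h2
    rw [hσ i t0 ⟨ht0'.1.le, ht0'.2⟩, e2] at e1
    have e3 : (F.s x (σ i) : ℝ) * t0 = s' i * t0 := by linarith
    have e4 := mul_right_cancel₀ (ne_of_gt ht0'.1) e3
    exact_mod_cast e4.symm
  rw [← Equiv.sum_comp σ (fun j => φ (F.s x j))]
  exact Finset.sum_congr rfl fun i _ => by rw [key i]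

lemma U_eq {x : X} (c' : StarChart X x) (s' : Fin c'.n → ℤ)
    (h : ∀ i, ∀ t ∈ Ico 0 c'.r, F.f (c'.leg i t) = F.f x + s' i * t) :
    F.U x = ∑ i, max (s' i) 0 := (F.sum_slopes_eq c' s' h (fun z => max z 0)).symm

lemma L_eq {x : X} (c' : StarChart X x) (s' : Fin c'.n → ℤ)
    (h : ∀ i, ∀ t ∈ Ico 0 c'.r, F.f (c'.leg i t) = F.f x + s' i * t) :
    F.L x = ∑ i, max (-s' i) 0 := (F.sum_slopes_eq c' s' h (fun z => max (-z) 0)).symm

lemma D_eq' {x : X} (c' : StarChart X x) (s' : Fin c'.n → ℤ)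
    (h : ∀ i, ∀ t ∈ Ico 0 c'.r, F.f (c'.leg i t) = F.f x + s' i * t) :
    F.D x = ∑ i, s' i := (F.sum_slopes_eq c' s' h (fun z => z)).symm

/-- Slopes at interior points of legs. -/
lemma lin_interior (x : X) (i : Fin (F.c x).n) (t : ℝ) (ht : t ∈ Ioo 0 (F.c x).r) :
    ∀ j, ∀ u ∈ Ico 0 ((F.c x).interior i t ht).r,
      F.f (((F.c x).interior i t ht).leg j u) =
        F.f ((F.c x).leg i t) + (![F.s x i, -F.s x i] j : ℤ) * u := by
  intro j u hu
  have hu1 : u < t := lt_of_lt_of_le hu.2 (min_le_left _ _)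
  have hu2 : u < (F.c x).r - t := lt_of_lt_of_le hu.2 (min_le_right _ _)
  have hu0 := hu.1
  have e := F.lin x i t ⟨ht.1.le, ht.2⟩
  change Fin 2 at j
  fin_cases j
  · change F.f ((F.c x).leg i (t + u)) = F.f ((F.c x).leg i t) + ((F.s x i : ℤ) : ℝ) * u
    rw [F.lin x i (t + u) ⟨by linarith [ht.1], by linarith⟩, e]; ring
  · change F.f ((F.c x).leg i (t - u)) = F.f ((F.c x).leg i t) + ((-F.s x i : ℤ) : ℝ) * u
    rw [F.lin x i (t - u) ⟨by linarith, by linarith⟩, e]; push_cast; ring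

lemma U_interior (x : X) (i : Fin (F.c x).n) (t : ℝ) (ht : t ∈ Ioo 0 (F.c x).r) :
    F.U ((F.c x).leg i t) = |F.s x i| := by
  rw [F.U_eq _ _ (F.lin_interior x i t ht)]
  change ∑ j : Fin 2, max (![F.s x i, -F.s x i] j) 0 = _
  rw [Fin.sum_univ_two]
  simp only [Matrix.cons_val_zero, Matrix.cons_val_one]
  rcases le_total 0 (F.s x i) with h | h
  · rw [max_eq_left h, max_eq_right (by omega), abs_of_nonneg h]; ring
  · rw [max_eq_right h, max_eq_left (by omega), abs_of_nonpos h]; ring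

lemma L_interior (x : X) (i : Fin (F.c x).n) (t : ℝ) (ht : t ∈ Ioo 0 (F.c x).r) :
    F.L ((F.c x).leg i t) = |F.s x i| := by
  rw [F.L_eq _ _ (F.lin_interior x i t ht)]
  change ∑ j : Fin 2, max (-(![F.s x i, -F.s x i] j)) 0 = _
  rw [Fin.sum_univ_two]
  simp only [Matrix.cons_val_zero, Matrix.cons_val_one]
  rcases le_total 0 (F.s x i) with h | h
  · rw [max_eq_left (by omega : 0 ≤ - -F.s x i), max_eq_right (by omega), abs_of_nonneg h]; ring
  · rw [max_eq_right (by omega : - -F.s x i ≤ 0), max_eq_left (by omega), abs_of_nonpos h]; ring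

lemma U_eq_L_of_mem {x y : X} (hy : dist y x < (F.c x).r) (hne : y ≠ x) : F.U y = F.L y := by
  obtain ⟨i, t, ht, rfl, _⟩ := (F.c x).exhaust_pos hy hne
  rw [F.U_interior x i t ht, F.L_interior x i t ht]

lemma D_eq_zero_of_mem {x y : X} (hy : dist y x < (F.c x).r) (hne : y ≠ x) : F.D y = 0 := by
  rw [F.D_eq, F.U_eq_L_of_mem hy hne, sub_self]

lemma continuous : Continuous F.f := by
  rw [continuous_iff_continuousAt]
  intro x
  rw [Metric.continuousAt_iff]
  intro ε hε
  set K : ℝ := ∑ i, |(F.s x i : ℝ)| with hK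
  have hK0 : 0 ≤ K := Finset.sum_nonneg fun i _ => abs_nonneg _
  refine ⟨min (F.c x).r (ε / (K + 1)), lt_min (F.c x).r_pos (by positivity), ?_⟩
  intro y hy
  have hy1 := lt_of_lt_of_le hy (min_le_left _ _)
  have hy2 := lt_of_lt_of_le hy (min_le_right _ _)
  by_cases hne : y = x
  · rw [hne, dist_self]; exact hε
  · obtain ⟨i, t, ht, rfl, hd⟩ := (F.c x).exhaust_pos hy1 hne
    rw [hd] at hy2
    rw [F.lin x i t ⟨ht.1.le, ht.2⟩, Real.dist_eq, add_sub_cancel_left, abs_mul,
      abs_of_pos ht.1]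
    have h1 : |(F.s x i : ℝ)| ≤ K := by
      rw [hK]
      exact Finset.single_le_sum (f := fun i => |(F.s x i : ℝ)|) (fun i _ => abs_nonneg _)
        (Finset.mem_univ i)
    have h2 : t * (K + 1) < ε := by rwa [lt_div_iff₀ (by positivity)] at hy2
    have h3 : |(F.s x i : ℝ)| * t ≤ K * t := mul_le_mul_of_nonneg_right h1 ht.1.le
    nlinarith [ht.1]

lemma support_D_finite [CompactSpace X] : (Function.support F.D).Finite := by
  obtain ⟨T, hT⟩ := CompactSpace.elim_nhds_subcover (fun x => ball x (F.c x).r)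
    (fun x => ball_mem_nhds x (F.c x).r_pos)
  refine T.finite_toSet.subset ?_
  intro y hy
  have h1 : y ∈ ⋃ x ∈ T, ball x (F.c x).r := by rw [hT]; trivial
  simp only [mem_iUnion, exists_prop] at h1
  obtain ⟨x, hx, hyx⟩ := h1
  by_cases hne : y = x
  · rw [hne]; exact hx
  · exact absurd (F.D_eq_zero_of_mem hyx hne) hy

/-- For every level `a` there is a finite set of points covering `X` by balls on which we
control `f` near the level `a`. -/
lemma exists_cover [CompactSpace X] (a : ℝ) : ∃ T : Finset X, ∃ δ > 0,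
    ∀ y, |F.f y - a| < δ → ∃ x ∈ T, F.f x = a ∧ dist y x < (F.c x).r := by
  have h1 : ∀ x, ∃ ρ > 0, ∃ δ > 0, ∀ y ∈ ball x ρ, |F.f y - a| < δ →
      F.f x = a ∧ dist y x < (F.c x).r := by
    intro x
    by_cases hx : F.f x = a
    · exact ⟨(F.c x).r, (F.c x).r_pos, 1, one_pos, fun y hy _ => ⟨hx, hy⟩⟩
    · have hpos : 0 < |F.f x - a| := abs_pos.2 (sub_ne_zero.2 hx)
      obtain ⟨ρ, hρ, h⟩ := Metric.continuousAt_iff.1 (F.continuous.continuousAt (x := x))
        (|F.f x - a| / 2) (by positivity)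
      refine ⟨ρ, hρ, |F.f x - a| / 2, by positivity, ?_⟩
      intro y hy hlt
      exfalso
      have h2 := h hy
      rw [Real.dist_eq, abs_sub_comm] at h2
      have h3 : |F.f x - a| ≤ |F.f x - F.f y| + |F.f y - a| := abs_sub_le _ _ _
      linarith
  choose ρ hρ δ hδ h using h1
  obtain ⟨T, hT⟩ := CompactSpace.elim_nhds_subcover (fun x => ball x (ρ x))
    (fun x => ball_mem_nhds x (hρ x))
  have h2 : ∀ᶠ e in 𝓝[>] (0 : ℝ), ∀ x ∈ T, e < δ x := by
    rw [Filter.eventually_all_finset]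
    intro x _
    exact mem_nhdsWithin_of_mem_nhds (Iio_mem_nhds (hδ x))
  obtain ⟨e, he, he0⟩ := (h2.and self_mem_nhdsWithin).exists
  refine ⟨T, e, he0, ?_⟩
  intro y hy
  have h3 : y ∈ ⋃ x ∈ T, ball x (ρ x) := by rw [hT]; trivial
  simp only [mem_iUnion, exists_prop] at h3
  obtain ⟨x, hx, hyx⟩ := h3
  exact ⟨x, hx, h x y hyx (lt_trans hy (he x hx))⟩

/-- the total upward slope at level `b` -/
noncomputable def NU (b : ℝ) : ℤ := ∑ᶠ y ∈ {y | F.f y = b}, F.U y

/-- the total downward slope at level `b` -/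
noncomputable def NL (b : ℝ) : ℤ := ∑ᶠ y ∈ {y | F.f y = b}, F.L y

lemma level_finite [CompactSpace X] (a : ℝ) :
    ({y | F.f y = a} ∩ Function.support F.U).Finite ∧
    ({y | F.f y = a} ∩ Function.support F.L).Finite := by
  obtain ⟨T, δ, hδ, hT⟩ := F.exists_cover a
  have key : ∀ y, F.f y = a → (F.U y ≠ 0 ∨ F.L y ≠ 0) → y ∈ T := by
    intro y hy h
    obtain ⟨x, hx, hxa, hyx⟩ := hT y (by rw [hy, sub_self, abs_zero]; exact hδ)
    by_cases hne : y = x
    · rw [hne]; exact hx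
    · exfalso
      obtain ⟨i, t, ht, rfl, _⟩ := (F.c x).exhaust_pos hyx hne
      have h1 := F.lin x i t ⟨ht.1.le, ht.2⟩
      rw [hy, hxa] at h1
      have h2 : (F.s x i : ℝ) * t = 0 := by linarith
      have h3 : (F.s x i : ℝ) = 0 := by
        rcases mul_eq_zero.1 h2 with h | h
        · exact h
        · exact absurd h (ne_of_gt ht.1)
      have h4 : F.s x i = 0 := by exact_mod_cast h3
      rw [F.U_interior x i t ht, F.L_interior x i t ht, h4] at h
      simp at h
  exact ⟨T.finite_toSet.subset fun y hy => key y hy.1 (Or.inl hy.2),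
    T.finite_toSet.subset fun y hy => key y hy.1 (Or.inr hy.2)⟩

lemma flux_step [CompactSpace X] (a : ℝ) :
    ∀ᶠ b in 𝓝[>] a, F.NU b = F.NU a ∧ F.NL b = F.NU a := by
  classical
  obtain ⟨T, δ, hδ, hT⟩ := F.exists_cover a
  have ev1 : ∀ᶠ b in 𝓝[>] a, a < b := self_mem_nhdsWithin
  have ev2 : ∀ᶠ b in 𝓝[>] a, b < a + δ :=
    mem_nhdsWithin_of_mem_nhds (Iio_mem_nhds (by linarith))
  have ev3 : ∀ᶠ b in 𝓝[>] a, ∀ x ∈ T, b < a + (F.c x).r := by
    rw [Filter.eventually_all_finset]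
    intro x _
    exact mem_nhdsWithin_of_mem_nhds (Iio_mem_nhds (by linarith [(F.c x).r_pos]))
  have ev4 : ∀ᶠ b in 𝓝[>] a, ∀ x ∈ T, ∀ x' ∈ T, x ≠ x' → b < a + dist x x' / 2 := by
    rw [Filter.eventually_all_finset]
    intro x _
    rw [Filter.eventually_all_finset]
    intro x' _
    by_cases h : x = x'
    · exact Filter.Eventually.of_forall fun b hb => absurd h hb
    · have := dist_pos.2 h
      filter_upwards [mem_nhdsWithin_of_mem_nhds (Iio_mem_nhds
        (by linarith : a < a + dist x x' / 2))] with b hb _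
      exact hb
  -- the value at level `a`
  have hNa : F.NU a = ∑ x ∈ T.filter (fun x => F.f x = a), F.U x := by
    unfold NU
    refine finsum_mem_eq_sum_of_inter_support_eq _ ?_
    ext y
    simp only [mem_inter_iff, mem_ofPred_eq, Finset.coe_filter, Function.mem_support]
    constructor
    · rintro ⟨hy, hU⟩
      refine ⟨⟨?_, hy⟩, hU⟩
      obtain ⟨x, hx, hxa, hyx⟩ := hT y (by rw [hy, sub_self, abs_zero]; exact hδ)
      by_cases hne : y = x
      · rw [hne]; exact hx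
      · exfalso
        obtain ⟨i, t, ht, rfl, _⟩ := (F.c x).exhaust_pos hyx hne
        have h1 := F.lin x i t ⟨ht.1.le, ht.2⟩
        rw [hy, hxa] at h1
        have h2 : (F.s x i : ℝ) * t = 0 := by linarith
        have h3 : (F.s x i : ℝ) = 0 := by
          rcases mul_eq_zero.1 h2 with h | h
          · exact h
          · exact absurd h (ne_of_gt ht.1)
        have h4 : F.s x i = 0 := by exact_mod_cast h3
        rw [F.U_interior x i t ht, h4] at hU
        simp at hU
    · rintro ⟨⟨_, hy⟩, hU⟩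
      exact ⟨hy, hU⟩
  filter_upwards [ev1, ev2, ev3, ev4] with b hab hbδ hbr hbd
  -- directions upward at level `a`
  set P : Finset (Σ x : X, Fin (F.c x).n) :=
    (T.filter (fun x => F.f x = a)).sigma (fun x => Finset.univ.filter (fun i => 0 < F.s x i))
    with hP
  set φ : (Σ x : X, Fin (F.c x).n) → X := fun p => (F.c p.1).leg p.2 ((b - a) / (F.s p.1 p.2))
    with hφ
  have hmemP : ∀ p, p ∈ P ↔ (p.1 ∈ T ∧ F.f p.1 = a) ∧ 0 < F.s p.1 p.2 := by
    intro p
    simp [hP, Finset.mem_sigma]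
  have htP : ∀ p ∈ P, (b - a) / (F.s p.1 p.2) ∈ Ioo 0 (F.c p.1).r ∧
      (b - a) / (F.s p.1 p.2) ≤ b - a := by
    intro p hp
    obtain ⟨⟨h1, h2⟩, h3⟩ := (hmemP p).1 hp
    have h4 : (1 : ℝ) ≤ F.s p.1 p.2 := by exact_mod_cast h3
    have h5 : (b - a) / (F.s p.1 p.2) ≤ b - a := div_le_self (by linarith) h4
    refine ⟨⟨div_pos (by linarith) (by linarith), ?_⟩, h5⟩
    linarith [hbr p.1 h1]
  have hfP : ∀ p ∈ P, F.f (φ p) = b := by
    intro p hp
    obtain ⟨⟨h1, h2⟩, h3⟩ := (hmemP p).1 hp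
    have h4 : (1 : ℝ) ≤ F.s p.1 p.2 := by exact_mod_cast h3
    have h5 := (htP p hp).1
    rw [hφ]
    simp only
    rw [F.lin p.1 p.2 _ ⟨h5.1.le, h5.2⟩, h2]
    field_simp
    ring
  have hinj : Set.InjOn φ (P : Set (Σ x : X, Fin (F.c x).n)) := by
    rintro ⟨x, i⟩ hp ⟨x', i'⟩ hp' heq
    have h1 := (htP _ hp)
    have h2 := (htP _ hp')
    simp only [hφ] at heq h1 h2
    by_cases hxx : x = x'
    · subst hxx
      have h3 := (F.c x).leg_inj ⟨h1.1.1.le, h1.1.2⟩ ⟨h2.1.1.le, h2.1.2⟩ h1.1.1 heq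
      rw [h3.1]
    · exfalso
      have h3 := (F.c x).dist_leg_self i ⟨h1.1.1.le, h1.1.2⟩
      have h4 := (F.c x').dist_leg_self i' ⟨h2.1.1.le, h2.1.2⟩
      rw [← heq] at h4
      have h5 := dist_triangle x ((F.c x).leg i ((b - a) / (F.s x i))) x'
      rw [dist_comm x ((F.c x).leg i ((b - a) / (F.s x i))), h3, h4] at h5
      have h6 := hbd x ((hmemP _).1 hp).1.1 x' ((hmemP _).1 hp').1.1 hxx
      linarith [h1.2, h2.2]
  have himg : {y | F.f y = b} = ((P.image φ : Finset X) : Set X) := by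
    ext y
    simp only [mem_ofPred_eq, Finset.coe_image, Set.mem_image, Finset.mem_coe]
    constructor
    · intro hy
      obtain ⟨x, hx, hxa, hyx⟩ := hT y (by rw [hy, abs_of_pos (by linarith)]; linarith)
      have hne : y ≠ x := by
        intro h; rw [h, hxa] at hy; linarith
      obtain ⟨i, t, ht, rfl, _⟩ := (F.c x).exhaust_pos hyx hne
      have h1 := F.lin x i t ⟨ht.1.le, ht.2⟩
      rw [hy, hxa] at h1
      have h2 : (F.s x i : ℝ) * t = b - a := by linarith
      have h3 : (0 : ℝ) < F.s x i := by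
        by_contra h
        have : (F.s x i : ℝ) * t ≤ 0 := mul_nonpos_of_nonpos_of_nonneg (not_lt.1 h) ht.1.le
        linarith
      refine ⟨⟨x, i⟩, (hmemP _).2 ⟨⟨hx, hxa⟩, by exact_mod_cast h3⟩, ?_⟩
      simp only [hφ]
      congr 1
      rw [← h2]; field_simp
    · rintro ⟨p, hp, rfl⟩
      exact hfP p hp
  have hUL : ∀ p ∈ P, F.U (φ p) = F.s p.1 p.2 ∧ F.L (φ p) = F.s p.1 p.2 := by
    intro p hp
    have h1 := ((hmemP p).1 hp).2
    have h2 := (htP p hp).1
    simp only [hφ]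
    rw [F.U_interior _ _ _ h2, F.L_interior _ _ _ h2, abs_of_pos h1]
    exact ⟨rfl, rfl⟩
  have hsum : ∑ p ∈ P, F.s p.1 p.2 = F.NU a := by
    rw [hNa, hP, Finset.sum_sigma]
    refine Finset.sum_congr rfl fun x _ => ?_
    unfold U
    rw [Finset.sum_filter]
    refine Finset.sum_congr rfl fun i _ => ?_
    by_cases h : 0 < F.s x i
    · rw [if_pos h, max_eq_left h.le]
    · rw [if_neg h, max_eq_right (not_lt.1 h)]
  constructor
  · unfold NU at *
    rw [himg, finsum_mem_coe_finset, Finset.sum_image hinj, ← hsum]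
    exact Finset.sum_congr rfl fun p hp => (hUL p hp).1
  · unfold NL
    rw [himg, finsum_mem_coe_finset, Finset.sum_image hinj, ← hsum]
    exact Finset.sum_congr rfl fun p hp => (hUL p hp).2

end RatData

end Pool.Agent.AbelPrym
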