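import Pool.Agent.Lib.MP_10cdc7_ag.Flux

/-!
# The flux identity: upward slope at a level plus degree of the divisor above it is zero
-/

open Set Metric Filter Topology

namespace Pool.Agent.AbelPrym

universe u v

variable {X : Type u} [MetricSpace X]

namespace RatData

variable (F : RatData X)

/-- the total upward slope at level `b` plus the degree of the divisor above level `b` -/
noncomputable def A (b : ℝ) : ℤ := F.NU b + ∑ᶠ y ∈ {y | b < F.f y}, F.D y

lemma A_right [CompactSpace X] (a : ℝ) : ∀ᶠ b in 𝓝[>] a, F.A b = F.A a := by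
  have hfin := F.support_D_finite
  have ev1 : ∀ᶠ b in 𝓝[>] a, a < b := self_mem_nhdsWithin
  have ev2 : ∀ᶠ b in 𝓝[>] a, ∀ y ∈ hfin.toFinset, a < F.f y → b < F.f y := by
    rw [Filter.eventually_all_finset]
    intro y _
    by_cases h : a < F.f y
    · filter_upwards [mem_nhdsWithin_of_mem_nhds (Iio_mem_nhds h)] with b hb _
      exact hb
    · exact Filter.Eventually.of_forall fun b hb => absurd hb h
  filter_upwards [F.flux_step a, ev1, ev2] with b hb hab hD
  unfold A
  rw [hb.1]
  congr 1
  refine finsum_mem_inter_support_eq _ _ _ ?_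
  ext y
  simp only [mem_inter_iff, mem_ofPred_eq]
  constructor
  · rintro ⟨h1, h2⟩
    exact ⟨by linarith, h2⟩
  · rintro ⟨h1, h2⟩
    exact ⟨hD y (hfin.mem_toFinset.2 h2) h1, h2⟩

lemma A_left [CompactSpace X] (a : ℝ) : ∀ᶠ b in 𝓝[<] a, F.A b = F.A a := by
  have hfin := F.support_D_finite
  have ev0 : ∀ᶠ b in 𝓝[<] a, F.NU b = F.NL a := by
    have h1 := F.neg.flux_step (-a)
    have h2 : Tendsto (fun b : ℝ => -b) (𝓝[<] a) (𝓝[>] (-a)) := tendsto_neg_nhdsLT
    filter_upwards [h2.eventually h1] with b hb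
    have e1 : F.neg.NL (-b) = F.NU b := by
      unfold NL NU
      simp only [neg_L]
      congr 1
      ext y
      change (∑ᶠ (_ : -F.f y = -b), F.U y) = _
      simp only [neg_inj]
      rfl
    have e2 : F.neg.NU (-a) = F.NL a := by
      unfold NL NU
      simp only [neg_U]
      congr 1
      ext y
      change (∑ᶠ (_ : -F.f y = -a), F.L y) = _
      simp only [neg_inj]
      rfl
    rw [← e1, ← e2]
    exact hb.2
  have ev1 : ∀ᶠ b in 𝓝[<] a, b < a := self_mem_nhdsWithin
  have ev2 : ∀ᶠ b in 𝓝[<] a, ∀ y ∈ hfin.toFinset, F.f y < a → F.f y < b := by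
    rw [Filter.eventually_all_finset]
    intro y _
    by_cases h : F.f y < a
    · filter_upwards [mem_nhdsWithin_of_mem_nhds (Ioi_mem_nhds h)] with b hb _
      exact hb
    · exact Filter.Eventually.of_forall fun b hb => absurd hb h
  filter_upwards [ev0, ev1, ev2] with b hb hab hD
  unfold A
  rw [hb]
  have h1 : ∑ᶠ y ∈ {y | b < F.f y}, F.D y = ∑ᶠ y ∈ ({y | F.f y = a} ∪ {y | a < F.f y}), F.D y := by
    refine finsum_mem_inter_support_eq _ _ _ ?_
    ext y
    simp only [mem_inter_iff, mem_ofPred_eq, mem_union]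
    constructor
    · rintro ⟨h1, h2⟩
      refine ⟨?_, h2⟩
      rcases lt_trichotomy (F.f y) a with h | h | h
      · have := hD y (hfin.mem_toFinset.2 h2) h
        linarith
      · exact Or.inl h
      · exact Or.inr h
    · rintro ⟨h1, h2⟩
      refine ⟨?_, h2⟩
      rcases h1 with h | h <;> linarith
  have hdisj : Disjoint {y | F.f y = a} {y | a < F.f y} := by
    rw [Set.disjoint_left]
    intro y hy hy'
    simp only [mem_ofPred_eq] at hy hy'
    linarith
  rw [h1, finsum_mem_union' hdisj (hfin.subset inter_subset_right)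
    (hfin.subset inter_subset_right), ← add_assoc]
  congr 1
  obtain ⟨f1, f2⟩ := F.level_finite a
  have h2 : F.NU a = F.NL a + ∑ᶠ y ∈ {y | F.f y = a}, F.D y := by
    unfold NU NL
    rw [← finsum_mem_add_distrib' f2 (hfin.subset inter_subset_right)]
    exact finsum_mem_congr rfl fun y _ => by rw [F.D_eq]; ring
  rw [h2]

lemma A_eq_zero [CompactSpace X] [Nonempty X] (a : ℝ) : F.A a = 0 := by
  have hloc : IsLocallyConstant F.A := by
    rw [IsLocallyConstant.iff_eventually_eq]
    intro b
    have h := (F.A_left b)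
    have h' := (F.A_right b)
    rw [← nhdsNE_sup_pure, ← nhdsLT_sup_nhdsGT]
    rw [Filter.eventually_sup, Filter.eventually_sup]
    exact ⟨⟨h, h'⟩, rfl⟩
  obtain ⟨x0, -, hx0⟩ := isCompact_univ.exists_isMaxOn (univ_nonempty (α := X))
    F.continuous.continuousOn
  have h1 : F.A a = F.A (F.f x0 + 1) := hloc.apply_eq_of_isPreconnected isPreconnected_univ
    (mem_univ _) (mem_univ _)
  rw [h1]
  unfold A NU
  have e1 : {y | F.f y = F.f x0 + 1} = ∅ := by
    ext y
    simp only [mem_ofPred_eq, mem_empty_iff_false, iff_false]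
    intro h
    have : F.f y ≤ F.f x0 := hx0 (mem_univ y)
    linarith
  have e2 : {y | F.f x0 + 1 < F.f y} = ∅ := by
    ext y
    simp only [mem_ofPred_eq, mem_empty_iff_false, iff_false]
    intro h
    have : F.f y ≤ F.f x0 := hx0 (mem_univ y)
    linarith
  rw [e1, e2, finsum_mem_empty, finsum_mem_empty, add_zero]

/-- The flux identity. -/
lemma flux [CompactSpace X] [Nonempty X] (a : ℝ) :
    F.NU a = - ∑ᶠ y ∈ {y | a < F.f y}, F.D y := by
  have := F.A_eq_zero a
  unfold A at this
  linarith

end RatData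

/-- A rational function with trivial divisor on a compact connected graph is constant. -/
lemma IsDivisorOf.const_of_zero [CompactSpace X] [ConnectedSpace X] {f : X → ℝ}
    (h : IsDivisorOf f 0) : ∀ x y, f x = f y := by
  obtain ⟨F, rfl, hF⟩ := h.exists_ratData
  obtain ⟨x0, -, hx0⟩ := isCompact_univ.exists_isMaxOn (univ_nonempty (α := X))
    F.continuous.continuousOn
  have hclosed : IsClosed {x | F.f x = F.f x0} := isClosed_eq F.continuous continuous_const
  have hopen : IsOpen {x | F.f x = F.f x0} := by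
    rw [Metric.isOpen_iff]
    intro x hx
    refine ⟨(F.c x).r, (F.c x).r_pos, ?_⟩
    have hr := (F.c x).r_pos
    have h1 : ∀ i, F.s x i ≤ 0 := by
      intro i
      have e1 := F.lin x i ((F.c x).r / 2) ⟨by linarith, by linarith⟩
      have e2 : F.f ((F.c x).leg i ((F.c x).r / 2)) ≤ F.f x0 := hx0 (mem_univ _)
      rw [e1, hx] at e2
      have e3 : (F.s x i : ℝ) * ((F.c x).r / 2) ≤ 0 := by linarith
      have e4 : (F.s x i : ℝ) ≤ 0 := by
        by_contra h
        have : 0 < (F.s x i : ℝ) * ((F.c x).r / 2) := mul_pos (not_le.1 h) (by linarith)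
        linarith
      exact_mod_cast e4
    have h2 : ∀ i, F.s x i = 0 := by
      have h3 : ∑ i, F.s x i = 0 := by rw [← hF x]; rfl
      have h4 := (Finset.sum_eq_zero_iff_of_nonpos (fun i _ => h1 i)).1 h3
      exact fun i => h4 i (Finset.mem_univ i)
    intro y hy
    by_cases hne : y = x
    · rw [hne]; exact hx
    · obtain ⟨i, t, ht, rfl, _⟩ := (F.c x).exhaust_pos hy hne
      change F.f _ = F.f x0
      rw [F.lin x i t ⟨ht.1.le, ht.2⟩, h2 i]
      simp only [Int.cast_zero, zero_mul, add_zero]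
      exact hx
  have huniv : {x | F.f x = F.f x0} = univ := IsClopen.eq_univ ⟨hclosed, hopen⟩ ⟨x0, rfl⟩
  intro x y
  have hx : x ∈ {x | F.f x = F.f x0} := by rw [huniv]; trivial
  have hy : y ∈ {x | F.f x = F.f x0} := by rw [huniv]; trivial
  exact hx.trans hy.symm

end Pool.Agent.AbelPrym
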