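import Pool.Agent.Lib.MP_10cdc7_ag.Cover

/-!
# The structure of the zero level of an odd rational function with few chips
-/

open Set Metric Filter Topology

namespace Pool.Agent.AbelPrym

universe u v

variable {X : Type u} {Y : Type v} [MetricSpace X] [MetricSpace Y] {π : X → Y} {ι : X → X}

lemma IsDivisorOf.sub_const {f : X → ℝ} {D : X → ℤ} (hf : IsDivisorOf f D) (κ : ℝ) :
    IsDivisorOf (fun x => f x - κ) D := by
  intro x
  obtain ⟨c, s, h1, h2⟩ := hf x
  refine ⟨c, s, ?_, h2⟩
  intro i t ht
  change f (c.leg i t) - κ = f x - κ + (s i : ℝ) * t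
  rw [h1 i t ht]; ring

lemma IsFreeDoubleCover.exists_odd [CompactSpace X] [ConnectedSpace X]
    (h : IsFreeDoubleCover π ι) {f : X → ℝ} {D : X → ℤ} (hf : IsDivisorOf f D)
    (hD : ∀ x, D (ι x) = - D x) :
    ∃ F : RatData X, (∀ x, F.f (ι x) = - F.f x) ∧ ∀ x, F.D x = D x := by
  have h1 := hf.add (h.isDivisorOf_comp hf)
  have h2 : (fun x => D x + (D ∘ ι) x) = 0 := by
    ext x
    simp [hD]
  rw [h2] at h1
  have h3 := h1.const_of_zero
  obtain ⟨x0⟩ : Nonempty X := inferInstance
  set κ : ℝ := (f x0 + f (ι x0)) / 2 with hκ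
  obtain ⟨F, hF, hFD⟩ := (hf.sub_const κ).exists_ratData
  refine ⟨F, ?_, fun x => (hFD x).symm⟩
  intro x
  have h4 : f x + f (ι x) = f x0 + f (ι x0) := h3 x x0
  rw [hF]
  simp only
  linarith

lemma RatData.U_invol (F : RatData X) (h : IsFreeDoubleCover π ι)
    (hodd : ∀ x, F.f (ι x) = - F.f x) (x : X) : F.U (ι x) = F.L x := by
  obtain ⟨ρ, c', e, hρ, hr, hleg⟩ := h.exists_chart x (F.c x)
  rw [F.U_eq c' (fun i => - F.s x (Fin.cast e i))]
  · exact Equiv.sum_comp (finCongr e) (fun i => max (-F.s x i) 0)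
  · intro i t ht
    rw [hr] at ht
    rw [hleg i t ht, hodd, hodd, F.lin x _ t ⟨ht.1, ht.2.trans_le hρ⟩]
    push_cast; ring

lemma RatData.L_invol (F : RatData X) (h : IsFreeDoubleCover π ι)
    (hodd : ∀ x, F.f (ι x) = - F.f x) (x : X) : F.L (ι x) = F.U x := by
  rw [← F.U_invol h hodd (ι x), h.invol]

omit [MetricSpace X] in
open Classical in
lemma finsum_mem_pt (W : Set X) (p : X) :
    ∑ᶠ y ∈ W, pt p y = if p ∈ W then 1 else 0 := by
  split_ifs with hp
  · have h1 : ∑ᶠ y ∈ W, pt p y = ∑ᶠ y ∈ ({p} : Set X), pt p y := by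
      refine finsum_mem_inter_support_eq _ _ _ ?_
      ext y
      simp only [mem_inter_iff, mem_singleton_iff, Function.mem_support, pt]
      constructor
      · rintro ⟨_, h⟩
        by_cases hy : y = p
        · exact ⟨hy, h⟩
        · rw [if_neg hy] at h; exact absurd rfl h
      · rintro ⟨rfl, h⟩
        exact ⟨hp, h⟩
    rw [h1, finsum_mem_singleton]
    simp [pt]
  · refine finsum_mem_eq_zero_of_forall_eq_zero ?_
    intro y hy
    unfold pt
    rw [if_neg]
    rintro rfl
    exact hp hy

omit [MetricSpace X] in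
lemma support_pt_finite (p : X) : (Function.support (pt p)).Finite := by
  refine (Set.finite_singleton p).subset ?_
  intro y hy
  by_contra hne
  rw [mem_singleton_iff] at hne
  apply hy
  unfold pt
  rw [if_neg hne]

open Classical in
/-- Total upward slope at level zero. -/
lemma RatData.NU_zero (F : RatData X) [CompactSpace X] [Nonempty X]
    (hodd : ∀ x, F.f (ι x) = - F.f x)
    {p q : X} (hD : ∀ x, F.D x = pt p x - pt (ι p) x - (pt q x - pt (ι q) x)) :
    F.NU 0 = (if F.f p < 0 then 1 else 0) + (if 0 < F.f q then 1 else 0)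
      - (if 0 < F.f p then 1 else 0) - (if F.f q < 0 then 1 else 0) := by
  have h1 := F.flux 0
  set W : Set X := {y | 0 < F.f y} with hW
  have hfin := F.support_D_finite
  have h2 : ∑ᶠ y ∈ W, (F.D y + (pt (ι p) y + pt q y)) = ∑ᶠ y ∈ W, (pt p y + pt (ι q) y) :=
    finsum_mem_congr rfl fun y _ => by rw [hD]; ring
  have hsup : (Function.support fun y => pt (ι p) y + pt q y).Finite := by
    refine ((support_pt_finite (ι p)).union (support_pt_finite q)).subset ?_
    exact Function.support_add _ _
  rw [finsum_mem_add_distrib' (hfin.subset inter_subset_right) (hsup.subset inter_subset_right),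
    finsum_mem_add_distrib' ((support_pt_finite _).subset inter_subset_right)
      ((support_pt_finite _).subset inter_subset_right),
    finsum_mem_add_distrib' ((support_pt_finite _).subset inter_subset_right)
      ((support_pt_finite _).subset inter_subset_right),
    finsum_mem_pt, finsum_mem_pt, finsum_mem_pt, finsum_mem_pt] at h2
  have e1 : (ι p ∈ W) ↔ F.f p < 0 := by
    simp only [hW, mem_ofPred_eq, hodd]
    constructor <;> intro h <;> linarith
  have e2 : (ι q ∈ W) ↔ F.f q < 0 := by
    simp only [hW, mem_ofPred_eq, hodd]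
    constructor <;> intro h <;> linarith
  have e3 : (p ∈ W) ↔ 0 < F.f p := Iff.rfl
  have e4 : (q ∈ W) ↔ 0 < F.f q := Iff.rfl
  simp only [e1, e2, e3, e4] at h2
  linarith

/-- The zero level of the odd function, first step: `U` and `L` are supported on a pair
`{a, ι a}` on the zero level, and `U a ≠ 0`. -/
lemma exists_zero_pair [CompactSpace X] [ConnectedSpace X] (h : IsFreeDoubleCover π ι)
    (F : RatData X) (hodd : ∀ x, F.f (ι x) = - F.f x) {p q : X} (hpq : p ≠ q)
    (hD : ∀ x, F.D x = pt p x - pt (ι p) x - (pt q x - pt (ι q) x)) :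
    (∃ z, 0 < F.f z) ∧ F.NU 0 ≤ 2 ∧
    (F.NU 0 = 2 → ∀ x, F.f x = 0 → F.U x = F.L x) ∧
    ∃ a, F.f a = 0 ∧ F.U a ≠ 0 ∧
      ∀ x, F.f x = 0 → (F.U x ≠ 0 ∨ F.L x ≠ 0) → x = a ∨ x = ι a := by
  classical
  -- `f` is not identically zero
  have hnz : ∃ z, F.f z ≠ 0 := by
    by_contra hcon
    push Not at hcon
    have h1 : F.D p = 0 := by
      unfold RatData.D
      refine Finset.sum_eq_zero fun i _ => ?_
      have hr := (F.c p).r_pos
      have h2 := F.lin p i ((F.c p).r / 2) ⟨by linarith, by linarith⟩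
      rw [hcon, hcon] at h2
      have h3 : (F.s p i : ℝ) * ((F.c p).r / 2) = 0 := by linarith
      rcases mul_eq_zero.1 h3 with h4 | h4
      · exact_mod_cast h4
      · linarith
    rw [hD] at h1
    have e1 : pt p p = 1 := by simp [pt]
    have e2 : pt (ι p) p = 0 := by
      unfold pt; rw [if_neg (h.ne p).symm]
    have e3 : pt q p = 0 := by
      unfold pt; rw [if_neg hpq]
    have e4 : 0 ≤ pt (ι q) p := by
      unfold pt; split_ifs <;> norm_num
    omega
  have hpos : ∃ z, 0 < F.f z := by
    obtain ⟨z, hz⟩ := hnz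
    rcases lt_or_gt_of_ne hz with h1 | h1
    · exact ⟨ι z, by rw [hodd]; linarith⟩
    · exact ⟨z, h1⟩
  have hN := F.NU_zero hodd hD
  have hN2 : F.NU 0 ≤ 2 := by
    rw [hN]; split_ifs <;> omega
  have hbal : F.NU 0 = 2 → ∀ x, F.f x = 0 → F.U x = F.L x := by
    intro h2 x hx
    have hpneg : F.f p < 0 := by
      by_contra hc
      rw [hN, if_neg hc] at h2
      split_ifs at h2 <;> omega
    have hqpos : 0 < F.f q := by
      by_contra hc
      rw [hN, if_neg hc] at h2
      split_ifs at h2 <;> omega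
    have hD0 : F.D x = 0 := by
      rw [hD]
      unfold pt
      have e1 : x ≠ p := by rintro rfl; linarith
      have e2 : x ≠ ι p := by rintro rfl; rw [hodd] at hx; linarith
      have e3 : x ≠ q := by rintro rfl; linarith
      have e4 : x ≠ ι q := by rintro rfl; rw [hodd] at hx; linarith
      rw [if_neg e1, if_neg e2, if_neg e3, if_neg e4]; rfl
    have := F.D_eq x
    omega
  refine ⟨hpos, hN2, hbal, ?_⟩
  -- the finite set of points with upward slopes
  have hfin := (F.level_finite 0).1
  have hsum : F.NU 0 = ∑ y ∈ hfin.toFinset, F.U y := finsum_mem_eq_sum _ hfin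
  have hmem : ∀ y, y ∈ hfin.toFinset ↔ F.f y = 0 ∧ F.U y ≠ 0 := by
    intro y; rw [Set.Finite.mem_toFinset]; rfl
  have hpos1 : ∀ y ∈ hfin.toFinset, 1 ≤ F.U y := by
    intro y hy
    have h1 := F.U_nonneg y
    have h2 := ((hmem y).1 hy).2
    omega
  -- nonempty
  have hne : hfin.toFinset.Nonempty := by
    by_contra hcon
    rw [Finset.not_nonempty_iff_eq_empty] at hcon
    have hU0 : ∀ y, F.f y = 0 → F.U y = 0 := by
      intro y hy
      by_contra h1
      have := (hmem y).2 ⟨hy, h1⟩
      rw [hcon] at this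
      exact absurd this (Finset.notMem_empty y)
    have hopen : IsOpen {y | 0 < F.f y} := isOpen_lt continuous_const F.continuous
    have hclosed : IsClosed {y | 0 < F.f y} := by
      rw [← isOpen_compl_iff, Metric.isOpen_iff]
      intro y hy
      have hy1 : F.f y ≤ 0 := not_lt.1 hy
      rcases lt_or_eq_of_le hy1 with hy2 | hy2
      · have hO : IsOpen {y | F.f y < 0} := isOpen_lt F.continuous continuous_const
        obtain ⟨ε, hε, hb⟩ := Metric.isOpen_iff.1 hO y hy2
        refine ⟨ε, hε, fun w hw => ?_⟩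
        have hw1 : F.f w < 0 := hb hw
        rw [Set.mem_compl_iff, mem_ofPred_eq, not_lt]
        exact hw1.le
      · refine ⟨(F.c y).r, (F.c y).r_pos, fun w hw => ?_⟩
        have hs : ∀ i, F.s y i ≤ 0 := by
          intro i
          have h3 := hU0 y hy2
          unfold RatData.U at h3
          have h4 := (Finset.sum_eq_zero_iff_of_nonneg (fun i _ => le_max_right _ _)).1 h3 i
            (Finset.mem_univ i)
          exact (max_eq_right_iff.1 h4)
        rw [Set.mem_compl_iff, mem_ofPred_eq, not_lt]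
        by_cases hwy : w = y
        · rw [hwy]; exact hy1
        · obtain ⟨i, t, ht, rfl, _⟩ := (F.c y).exhaust_pos hw hwy
          rw [F.lin y i t ⟨ht.1.le, ht.2⟩, hy2, zero_add]
          exact mul_nonpos_of_nonpos_of_nonneg (by exact_mod_cast hs i) ht.1.le
    have huniv := IsClopen.eq_univ ⟨hclosed, hopen⟩ hpos
    obtain ⟨z, hz⟩ := hpos
    have h3 : ι z ∈ {y | 0 < F.f y} := by rw [huniv]; trivial
    have h4 : 0 < F.f (ι z) := h3
    rw [hodd] at h4
    linarith
  obtain ⟨a, ha⟩ := hne
  refine ⟨a, ((hmem a).1 ha).1, ((hmem a).1 ha).2, ?_⟩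
  -- any two distinct points of the set are swapped by the involution
  have key : ∀ x ∈ hfin.toFinset, ∀ y ∈ hfin.toFinset, x ≠ y → y = ι x := by
    intro x hx y hy hxy
    have h2 : F.NU 0 = 2 := by
      have h3 : ∑ z ∈ ({x, y} : Finset X), F.U z ≤ F.NU 0 := by
        rw [hsum]
        refine Finset.sum_le_sum_of_subset_of_nonneg ?_ (fun z _ _ => F.U_nonneg z)
        intro z hz
        simp only [Finset.mem_insert, Finset.mem_singleton] at hz
        rcases hz with rfl | rfl
        · exact hx
        · exact hy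
      rw [Finset.sum_pair hxy] at h3
      have := hpos1 x hx
      have := hpos1 y hy
      omega
    have h4 := hbal h2 x ((hmem x).1 hx).1
    have h5 : ι x ∈ hfin.toFinset := by
      rw [hmem, hodd, F.U_invol h hodd, ← h4, ((hmem x).1 hx).1]
      exact ⟨neg_zero, ((hmem x).1 hx).2⟩
    by_contra hyx
    have h6 : ∑ z ∈ ({x, y, ι x} : Finset X), F.U z ≤ F.NU 0 := by
      rw [hsum]
      refine Finset.sum_le_sum_of_subset_of_nonneg ?_ (fun z _ _ => F.U_nonneg z)
      intro z hz
      simp only [Finset.mem_insert, Finset.mem_singleton] at hz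
      rcases hz with rfl | rfl | rfl
      · exact hx
      · exact hy
      · exact h5
    rw [Finset.sum_insert, Finset.sum_pair hyx] at h6
    · have := hpos1 x hx
      have := hpos1 y hy
      have := hpos1 _ h5
      omega
    · simp only [Finset.mem_insert, Finset.mem_singleton, not_or]
      exact ⟨hxy, (h.ne x).symm⟩
  intro x hx hor
  by_contra hcon
  push Not at hcon
  rcases hor with h1 | h1
  · have := key a ha x ((hmem x).2 ⟨hx, h1⟩) hcon.1.symm
    exact hcon.2 this
  · have h3 : ι x ∈ hfin.toFinset := by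
      rw [hmem, hodd, F.U_invol h hodd, hx]
      exact ⟨neg_zero, h1⟩
    have h4 : a ≠ ι x := by
      rintro rfl
      exact hcon.2 (h.invol x).symm
    have := key a ha (ι x) h3 h4
    apply hcon.1
    rw [← h.invol x, this, h.invol]

end Pool.Agent.AbelPrym
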