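import Pool.Agent.Lib.MP_10cdc7_ag.Main1

/-!
# The zero level is a pair of points of valence two
-/

open Set Metric Filter Topology

namespace Pool.Agent.AbelPrym

universe u v

variable {X : Type u} {Y : Type v} [MetricSpace X] [MetricSpace Y] {π : X → Y} {ι : X → X}

/-- Use of 2-connectedness: the zero level is exactly `{a, ι a}`. -/
lemma zero_level_eq (h : IsFreeDoubleCover π ι) (h2 : TwoConnected Y)
    (F : RatData X) (hodd : ∀ x, F.f (ι x) = - F.f x) (hpos : ∃ z, 0 < F.f z) {a : X}
    (ha : F.f a = 0)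
    (hUL : ∀ x, F.f x = 0 → (F.U x ≠ 0 ∨ F.L x ≠ 0) → x = a ∨ x = ι a) :
    ∀ x, F.f x = 0 → x = a ∨ x = ι a := by
  intro x hx
  by_contra hcon
  set V : Set X := {y | F.f y = 0 ∧ y ≠ a ∧ y ≠ ι a} with hV
  set W : Set X := {y | F.f y ≠ 0} with hW
  have hWo : IsOpen W := isOpen_ne_fun F.continuous continuous_const
  have hVo : IsOpen V := by
    have h1 : IsOpen {y : X | y ≠ a ∧ y ≠ ι a} :=
      (isOpen_ne).inter (isOpen_ne)
    rw [Metric.isOpen_iff] at h1 ⊢
    rintro y ⟨hy0, hya, hyb⟩
    obtain ⟨ε, hε, hb⟩ := h1 y ⟨hya, hyb⟩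
    refine ⟨min ε (F.c y).r, lt_min hε (F.c y).r_pos, fun w hw => ?_⟩
    have hw1 : w ∈ ball y ε := ball_subset_ball (min_le_left _ _) hw
    have hw2 : w ∈ ball y (F.c y).r := ball_subset_ball (min_le_right _ _) hw
    refine ⟨?_, hb hw1⟩
    have hU : F.U y = 0 := by
      by_contra hc
      rcases hUL y hy0 (Or.inl hc) with h3 | h3
      · exact hya h3
      · exact hyb h3
    have hL : F.L y = 0 := by
      by_contra hc
      rcases hUL y hy0 (Or.inr hc) with h3 | h3
      · exact hya h3
      · exact hyb h3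
    by_cases hwy : w = y
    · rw [hwy]; exact hy0
    · obtain ⟨i, t, ht, rfl, _⟩ := (F.c y).exhaust_pos hw2 hwy
      have h4 := (Finset.sum_eq_zero_iff_of_nonneg (fun i _ => le_max_right _ _)).1 hU i
        (Finset.mem_univ i)
      have h5 := (Finset.sum_eq_zero_iff_of_nonneg (fun i _ => le_max_right _ _)).1 hL i
        (Finset.mem_univ i)
      have h6 : F.s y i = 0 := by
        have h7 := max_eq_right_iff.1 h4
        have h8 := max_eq_right_iff.1 h5
        omega
      rw [F.lin y i t ⟨ht.1.le, ht.2⟩, h6, hy0]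
      simp
  have hconn := h2 (π a)
  have hcov : ({π a}ᶜ : Set Y) ⊆ π '' W ∪ π '' V := by
    intro y hy
    obtain ⟨w, rfl⟩ := h.surjective y
    by_cases hw : F.f w = 0
    · right
      refine ⟨w, ⟨hw, ?_, ?_⟩, rfl⟩
      · rintro rfl; exact hy rfl
      · rintro rfl; exact hy (h.swap a).2
    · left; exact ⟨w, hw, rfl⟩
  have hne1 : (({π a}ᶜ : Set Y) ∩ π '' W).Nonempty := by
    obtain ⟨z, hz⟩ := hpos
    refine ⟨π z, ?_, ⟨z, ne_of_gt hz, rfl⟩⟩
    intro hza
    rcases h.fibre (show π z = π a from hza) with h3 | h3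
    · rw [h3, ha] at hz; exact lt_irrefl _ hz
    · rw [h3, hodd, ha, neg_zero] at hz; exact lt_irrefl _ hz
  have hne2 : (({π a}ᶜ : Set Y) ∩ π '' V).Nonempty := by
    push Not at hcon
    refine ⟨π x, ?_, ⟨x, ⟨hx, hcon⟩, rfl⟩⟩
    intro hxa
    rcases h.fibre (show π x = π a from hxa) with h3 | h3
    · exact hcon.1 h3
    · exact hcon.2 h3
  obtain ⟨y, -, ⟨w, hw, rfl⟩, ⟨w', hw', hww⟩⟩ :=
    hconn _ _ (h.isOpenMap _ hWo) (h.isOpenMap _ hVo) hcov hne1 hne2
  rcases h.fibre hww with h3 | h3
  · rw [h3] at hw'; exact hw hw'.1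
  · rw [h3] at hw'
    have h4 := hw'.1
    rw [hodd] at h4
    exact hw (neg_eq_zero.1 h4)

/-- Slopes at a point of the zero level are nonzero. -/
lemma slope_ne_zero (h : IsFreeDoubleCover π ι) (F : RatData X) {a : X}
    (hzero : ∀ x, F.f x = 0 → x = a ∨ x = ι a) {x : X} (hx : F.f x = 0) (i : Fin (F.c x).n) :
    F.s x i ≠ 0 := by
  intro hs
  have hd : 0 < dist x (ι x) := dist_pos.2 (h.ne x).symm
  set t := min ((F.c x).r / 2) (dist x (ι x) / 2) with ht
  have hr := (F.c x).r_pos
  have ht0 : 0 < t := lt_min (by linarith) (by linarith)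
  have ht1 : t < (F.c x).r := lt_of_le_of_lt (min_le_left _ _) (by linarith)
  have ht2 : t < dist x (ι x) := lt_of_le_of_lt (min_le_right _ _) (by linarith)
  have h1 := F.lin x i t ⟨ht0.le, ht1⟩
  rw [hs, hx] at h1
  have h2 : F.f ((F.c x).leg i t) = 0 := by rw [h1]; simp
  have h3 := (F.c x).dist_leg_self i ⟨ht0.le, ht1⟩
  have hcase : (F.c x).leg i t = x ∨ (F.c x).leg i t = ι x := by
    rcases hzero _ h2 with h4 | h4 <;> rcases hzero _ hx with h5 | h5
    · left; rw [h4, h5]
    · right; rw [h4, h5, h.invol]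
    · right; rw [h4, h5]
    · left; rw [h4, h5]
  rcases hcase with h4 | h4
  · rw [h4, dist_self] at h3; linarith
  · rw [h4, dist_comm] at h3; linarith

lemma zero_pair_valence [CompactSpace X] [ConnectedSpace X] (h : IsFreeDoubleCover π ι)
    (F : RatData X) (hodd : ∀ x, F.f (ι x) = - F.f x) {a : X}
    (ha : F.f a = 0) (hUa : F.U a ≠ 0) (hN2 : F.NU 0 ≤ 2)
    (hzero : ∀ x, F.f x = 0 → x = a ∨ x = ι a) : F.U a = 1 ∧ F.L a = 1 := by
  classical
  have hfa : F.f (ι a) = 0 := by rw [hodd, ha, neg_zero]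
  have hLne : F.L a ≠ 0 := by
    intro hL0
    have hd : 0 < dist a (ι a) := dist_pos.2 (h.ne a).symm
    have hW : IsClopen {y | 0 < F.f y ∨ y = a} := by
      constructor
      · rw [← isOpen_compl_iff, Metric.isOpen_iff]
        intro y hy
        rw [Set.mem_compl_iff, mem_ofPred_eq, not_or, not_lt] at hy
        rcases lt_or_eq_of_le hy.1 with hy2 | hy2
        · have hO : IsOpen {y | F.f y < 0} := isOpen_lt F.continuous continuous_const
          obtain ⟨ε, hε, hb⟩ := Metric.isOpen_iff.1 hO y hy2
          refine ⟨ε, hε, fun w hw => ?_⟩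
          have hw1 : F.f w < 0 := hb hw
          rw [Set.mem_compl_iff, mem_ofPred_eq, not_or, not_lt]
          refine ⟨hw1.le, ?_⟩
          rintro rfl
          linarith
        · have hyι : y = ι a := by
            rcases hzero y hy2 with h3 | h3
            · exact absurd h3 hy.2
            · exact h3
          subst hyι
          refine ⟨min (F.c (ι a)).r (dist a (ι a)), lt_min (F.c (ι a)).r_pos hd,
            fun w hw => ?_⟩
          have hw1 : w ∈ ball (ι a) (F.c (ι a)).r := ball_subset_ball (min_le_left _ _) hw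
          have hw2 : w ∈ ball (ι a) (dist a (ι a)) := ball_subset_ball (min_le_right _ _) hw
          rw [Set.mem_compl_iff, mem_ofPred_eq, not_or, not_lt]
          have hU0 : F.U (ι a) = 0 := by rw [F.U_invol h hodd, hL0]
          have hs : ∀ i, F.s (ι a) i ≤ 0 := by
            intro i
            have h4 := (Finset.sum_eq_zero_iff_of_nonneg (fun i _ => le_max_right _ _)).1 hU0 i
              (Finset.mem_univ i)
            exact (max_eq_right_iff.1 h4)
          constructor
          · by_cases hwy : w = ι a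
            · rw [hwy]; exact hy.1
            · obtain ⟨i, t, ht, rfl, _⟩ := (F.c (ι a)).exhaust_pos hw1 hwy
              rw [F.lin (ι a) i t ⟨ht.1.le, ht.2⟩, hfa, zero_add]
              exact mul_nonpos_of_nonpos_of_nonneg (by exact_mod_cast hs i) ht.1.le
          · rintro rfl
            rw [mem_ball] at hw2
            exact lt_irrefl _ hw2
      · rw [Metric.isOpen_iff]
        intro y hy
        rcases hy with hy | hy
        · have hO : IsOpen {y | 0 < F.f y} := isOpen_lt continuous_const F.continuous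
          obtain ⟨ε, hε, hb⟩ := Metric.isOpen_iff.1 hO y hy
          exact ⟨ε, hε, fun w hw => Or.inl (hb hw)⟩
        · subst hy
          refine ⟨min (F.c y).r (dist y (ι y)), lt_min (F.c y).r_pos hd, fun w hw => ?_⟩
          have hw1 : w ∈ ball y (F.c y).r := ball_subset_ball (min_le_left _ _) hw
          have hw2 : w ∈ ball y (dist y (ι y)) := ball_subset_ball (min_le_right _ _) hw
          have hs : ∀ i, 0 ≤ F.s y i := by
            intro i
            have h4 := (Finset.sum_eq_zero_iff_of_nonneg (fun i _ => le_max_right _ _)).1 hL0 i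
              (Finset.mem_univ i)
            have := (max_eq_right_iff.1 h4)
            omega
          by_cases hwy : w = y
          · exact Or.inr hwy
          · left
            have hne : F.f w ≠ 0 := by
              intro hw0
              rcases hzero w hw0 with h3 | h3
              · exact hwy h3
              · rw [h3, mem_ball, dist_comm] at hw2
                exact lt_irrefl _ hw2
            have hge : 0 ≤ F.f w := by
              obtain ⟨i, t, ht, rfl, _⟩ := (F.c y).exhaust_pos hw1 hwy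
              rw [F.lin y i t ⟨ht.1.le, ht.2⟩, ha, zero_add]
              exact mul_nonneg (by exact_mod_cast hs i) ht.1.le
            exact lt_of_le_of_ne hge hne.symm
    have huniv := hW.eq_univ ⟨a, Or.inr rfl⟩
    have h3 : ι a ∈ {y | 0 < F.f y ∨ y = a} := by rw [huniv]; trivial
    rcases h3 with h3 | h3
    · rw [hfa] at h3; exact lt_irrefl _ h3
    · exact h.ne a h3
  have hfin := (F.level_finite 0).1
  have hsum : F.NU 0 = ∑ y ∈ hfin.toFinset, F.U y := finsum_mem_eq_sum _ hfin
  have h3 : ∑ z ∈ ({a, ι a} : Finset X), F.U z ≤ F.NU 0 := by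
    rw [hsum]
    refine Finset.sum_le_sum_of_subset_of_nonneg ?_ (fun z _ _ => F.U_nonneg z)
    intro z hz
    simp only [Finset.mem_insert, Finset.mem_singleton] at hz
    rw [Set.Finite.mem_toFinset]
    rcases hz with rfl | rfl
    · exact ⟨ha, hUa⟩
    · refine ⟨hfa, ?_⟩
      rw [Function.mem_support, F.U_invol h hodd]
      exact hLne
  rw [Finset.sum_pair (h.ne a).symm, F.U_invol h hodd] at h3
  have h4 := F.U_nonneg a
  have h5 := F.L_nonneg a
  omega

end Pool.Agent.AbelPrym
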