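import Pool.Agent.Lib.MP_10cdc7_ag.Main2

/-!
# A pair of points of valence two as zero level gives an infinite fibre of the Abel-Prym map
-/

open Set Metric Filter Topology

namespace Pool.Agent.AbelPrym

universe u v

variable {X : Type u} {Y : Type v} [MetricSpace X] [MetricSpace Y] {π : X → Y} {ι : X → X}

open Classical in
lemma clamp_local (lo hi v : ℝ) (h : lo < hi) : ∃ δ > 0,
    (∀ w, 0 ≤ w → w < δ → max lo (min (v + w) hi) =
      max lo (min v hi) + ((if lo ≤ v ∧ v < hi then 1 else 0 : ℤ) : ℝ) * w) ∧
    (∀ w, 0 ≤ w → w < δ → max lo (min (v - w) hi) =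
      max lo (min v hi) - ((if lo < v ∧ v ≤ hi then 1 else 0 : ℤ) : ℝ) * w) := by
  rcases lt_trichotomy v lo with h1 | h1 | h1
  · refine ⟨lo - v, by linarith, fun w hw0 hw => ?_, fun w hw0 hw => ?_⟩
    · rw [if_neg (by rintro ⟨h2, _⟩; linarith), min_eq_left (by linarith),
        min_eq_left (by linarith), max_eq_left (by linarith), max_eq_left (by linarith)]
      simp
    · rw [if_neg (by rintro ⟨h2, _⟩; linarith), min_eq_left (by linarith),
        min_eq_left (by linarith), max_eq_left (by linarith), max_eq_left (by linarith)]
      simp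
  · subst h1
    refine ⟨hi - v, by linarith, fun w hw0 hw => ?_, fun w hw0 hw => ?_⟩
    · rw [if_pos ⟨le_rfl, h⟩, min_eq_left (by linarith),
        min_eq_left (by linarith), max_eq_right (by linarith), max_eq_left (by linarith)]
      simp
    · rw [if_neg (by rintro ⟨h2, _⟩; linarith), min_eq_left (by linarith),
        min_eq_left (by linarith), max_eq_left (by linarith), max_eq_left (by linarith)]
      simp
  · rcases lt_trichotomy v hi with h3 | h3 | h3
    · refine ⟨min (v - lo) (hi - v), lt_min (by linarith) (by linarith), fun w hw0 hw => ?_,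
        fun w hw0 hw => ?_⟩
      · have hw2 := lt_of_lt_of_le hw (min_le_right _ _)
        rw [if_pos ⟨h1.le, h3⟩, min_eq_left (by linarith),
          min_eq_left (by linarith), max_eq_right (by linarith), max_eq_right (by linarith)]
        simp
      · have hw1 := lt_of_lt_of_le hw (min_le_left _ _)
        rw [if_pos ⟨h1, h3.le⟩, min_eq_left (by linarith),
          min_eq_left (by linarith), max_eq_right (by linarith), max_eq_right (by linarith)]
        simp
    · subst h3
      refine ⟨v - lo, by linarith, fun w hw0 hw => ?_, fun w hw0 hw => ?_⟩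
      · rw [if_neg (by rintro ⟨_, h2⟩; linarith), min_eq_right (by linarith),
          min_eq_left (by linarith), max_eq_right (by linarith)]
        simp
      · rw [if_pos ⟨h1, le_rfl⟩, min_eq_left (by linarith),
          min_eq_left (by linarith), max_eq_right (by linarith), max_eq_right (by linarith)]
        simp
    · refine ⟨v - hi, by linarith, fun w hw0 hw => ?_, fun w hw0 hw => ?_⟩
      · rw [if_neg (by rintro ⟨_, h2⟩; linarith), min_eq_right (by linarith),
          min_eq_right (by linarith), max_eq_right (by linarith)]
        simp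
      · rw [if_neg (by rintro ⟨_, h2⟩; linarith), min_eq_right (by linarith),
          min_eq_right (by linarith), max_eq_right (by linarith)]
        simp

lemma RatData.slope_cases (F : RatData X) {x : X} (hU : F.U x = 1) (hL : F.L x = 1)
    (hne : ∀ i, F.s x i ≠ 0) (i : Fin (F.c x).n) : F.s x i = 1 ∨ F.s x i = -1 := by
  have h1 : max (F.s x i) 0 ≤ F.U x := by
    unfold RatData.U
    exact Finset.single_le_sum (f := fun i => max (F.s x i) 0) (fun i _ => le_max_right _ _)
      (Finset.mem_univ i)
  have h2 : max (-F.s x i) 0 ≤ F.L x := by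
    unfold RatData.L
    exact Finset.single_le_sum (f := fun i => max (-F.s x i) 0) (fun i _ => le_max_right _ _)
      (Finset.mem_univ i)
  have h3 := hne i
  have h4 := le_max_left (F.s x i) 0
  have h5 := le_max_left (-F.s x i) 0
  omega

/-- Near a point of the zero level (valence two, slopes `±1`), `|f|` is the distance and the
slopes are `±1`. -/
lemma RatData.near_zero (F : RatData X) {x : X} (hx : F.f x = 0) (hU : F.U x = 1)
    (hL : F.L x = 1) (hne : ∀ i, F.s x i ≠ 0) {z : X} (hz : dist z x < (F.c x).r) :
    |F.f z| = dist z x ∧ F.U z = 1 ∧ F.L z = 1 := by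
  by_cases hzx : z = x
  · subst hzx
    rw [hx, dist_self, abs_zero]
    exact ⟨rfl, hU, hL⟩
  · obtain ⟨i, t, ht, rfl, hd⟩ := (F.c x).exhaust_pos hz hzx
    rw [hd, F.lin x i t ⟨ht.1.le, ht.2⟩, hx, zero_add, F.U_interior x i t ht,
      F.L_interior x i t ht]
    rcases F.slope_cases hU hL hne i with h | h
    · rw [h]; simp [abs_of_pos ht.1]
    · rw [h]; simp [abs_of_pos ht.1]

lemma RatData.exists_up (F : RatData X) {x : X} (hx : F.f x = 0) (hU : F.U x = 1)
    (hL : F.L x = 1) (hne : ∀ i, F.s x i ≠ 0) :
    ∃ i0, F.s x i0 = 1 ∧ ∀ z, dist z x < (F.c x).r → 0 < F.f z →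
      z = (F.c x).leg i0 (F.f z) := by
  have h1 : ∃ i0, 0 < F.s x i0 := by
    by_contra hcon
    push Not at hcon
    have : F.U x = 0 := Finset.sum_eq_zero fun i _ => max_eq_right (hcon i)
    omega
  obtain ⟨i0, hi0⟩ := h1
  have hi1 : F.s x i0 = 1 := by
    rcases F.slope_cases hU hL hne i0 with h | h
    · exact h
    · omega
  refine ⟨i0, hi1, fun z hz hfz => ?_⟩
  have hzx : z ≠ x := by
    rintro rfl; linarith
  obtain ⟨i, t, ht, rfl, hd⟩ := (F.c x).exhaust_pos hz hzx
  have h2 := F.lin x i t ⟨ht.1.le, ht.2⟩
  rw [hx, zero_add] at h2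
  rcases F.slope_cases hU hL hne i with h | h
  · have h3 : i = i0 := by
      by_contra hii
      have h4 : ∑ j ∈ ({i, i0} : Finset _), max (F.s x j) 0 ≤ F.U x := by
        unfold RatData.U
        exact Finset.sum_le_sum_of_subset_of_nonneg (Finset.subset_univ _)
          (fun j _ _ => le_max_right _ _)
      rw [Finset.sum_pair hii, h, hi1, hU] at h4
      norm_num at h4
    subst h3
    rw [h2, h]
    simp
  · rw [h2, h] at hfz
    push_cast at hfz
    linarith [ht.1]

theorem infinite_fibre (h : IsFreeDoubleCover π ι)
    (F : RatData X) (hodd : ∀ x, F.f (ι x) = - F.f x) {a : X}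
    (ha : F.f a = 0) (hU1 : F.U a = 1) (hL1 : F.L a = 1)
    (hzero : ∀ x, F.f x = 0 → x = a ∨ x = ι a) :
    {q | LinEquiv (prymDivisor ι q) (prymDivisor ι a)}.Infinite := by
  classical
  set b := ι a with hb
  have hfb : F.f b = 0 := by rw [hb, hodd, ha, neg_zero]
  have hUb : F.U b = 1 := by rw [hb, F.U_invol h hodd, hL1]
  have hLb : F.L b = 1 := by rw [hb, F.L_invol h hodd, hU1]
  have hnea := fun i => slope_ne_zero h F hzero ha i
  have hneb := fun i => slope_ne_zero h F hzero hfb i
  have hd : 0 < dist a b := dist_pos.2 (h.ne a).symm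
  obtain ⟨ρ, hρ, Hloc⟩ := h.exists_local a
  set r0 := min (min (F.c a).r (F.c b).r) (min ρ (dist a b / 2)) with hr0
  have hr0a : r0 ≤ (F.c a).r := (min_le_left _ _).trans (min_le_left _ _)
  have hr0b : r0 ≤ (F.c b).r := (min_le_left _ _).trans (min_le_right _ _)
  have hr0ρ : r0 ≤ ρ := (min_le_right _ _).trans (min_le_left _ _)
  have hr0d : r0 ≤ dist a b / 2 := (min_le_right _ _).trans (min_le_right _ _)
  have hr0pos : 0 < r0 := lt_min (lt_min (F.c a).r_pos (F.c b).r_pos)
    (lt_min hρ (by linarith))
  obtain ⟨H1, H2, H3, H4⟩ := Hloc r0 hr0ρ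
  have hdisj : ∀ z, dist z a < r0 → dist z b < r0 → False := by
    intro z h1 h2
    have := dist_triangle_left a b z
    linarith
  have hA : ∀ z, dist z a < r0 → |F.f z| = dist z a ∧ F.U z = 1 ∧ F.L z = 1 := fun z hz =>
    F.near_zero ha hU1 hL1 hnea (lt_of_lt_of_le hz hr0a)
  have hB : ∀ z, dist z b < r0 → |F.f z| = dist z b ∧ F.U z = 1 ∧ F.L z = 1 := fun z hz =>
    F.near_zero hfb hUb hLb hneb (lt_of_lt_of_le hz hr0b)
  obtain ⟨i0, hi0, hup⟩ := F.exists_up ha hU1 hL1 hnea
  -- the points moving along the upward leg
  set xs : ℝ → X := fun s => (F.c a).leg i0 s with hxs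
  have hxs_dist : ∀ s ∈ Ioo 0 r0, dist (xs s) a = s := fun s hs =>
    (F.c a).dist_leg_self i0 ⟨hs.1.le, lt_of_lt_of_le hs.2 hr0a⟩
  have hxs_f : ∀ s ∈ Ioo 0 r0, F.f (xs s) = s := by
    intro s hs
    simp only [hxs]
    rw [F.lin a i0 s ⟨hs.1.le, lt_of_lt_of_le hs.2 hr0a⟩, ha, hi0]
    simp
  have main : ∀ s ∈ Ioo 0 r0, LinEquiv (prymDivisor ι (xs s)) (prymDivisor ι a) := by
    intro s hs
    have hs0 := hs.1
    have hs1 := hs.2
    apply LinEquiv.symm
    have hxd := hxs_dist s hs
    have hxf := hxs_f s hs
    have hyd : dist (ι (xs s)) b < r0 := by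
      have := H1 (xs s) (by rw [mem_ball, hxd]; exact hs1)
      exact this
    have hyf : F.f (ι (xs s)) = -s := by rw [hodd, hxf]
    -- uniqueness of the points of level `s` near `a` and of level `-s` near `b`
    have huniqA : ∀ z, dist z a < r0 → (F.f z = s ↔ z = xs s) := by
      intro z hz
      constructor
      · intro hfz
        have := hup z (lt_of_lt_of_le hz hr0a) (by rw [hfz]; exact hs0)
        rw [hfz] at this
        exact this
      · rintro rfl
        exact hxf
    have huniqB : ∀ z, dist z b < r0 → (F.f z = -s ↔ z = ι (xs s)) := by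
      intro z hz
      constructor
      · intro hfz
        have h5 : dist (ι z) a < r0 := H2 z hz
        have h6 := (huniqA (ι z) h5).1 (by rw [hodd, hfz, neg_neg])
        rw [← h6, h.invol]
      · rintro rfl
        exact hyf
    have hzA : ∀ z, dist z a < r0 → (F.f z = 0 ↔ z = a) := by
      intro z hz
      constructor
      · intro hfz
        rcases hzero z hfz with h5 | h5
        · exact h5
        · exfalso
          exact hdisj z hz (by rw [h5, dist_self]; exact hr0pos)
      · rintro rfl; exact ha
    have hzB : ∀ z, dist z b < r0 → (F.f z = 0 ↔ z = b) := by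
      intro z hz
      constructor
      · intro hfz
        rcases hzero z hfz with h5 | h5
        · exfalso
          exact hdisj z (by rw [h5, dist_self]; exact hr0pos) hz
        · exact h5
      · rintro rfl; exact hfb
    set g : X → ℝ := fun z => if dist z a < r0 then max 0 (min (F.f z) s) else
      if dist z b < r0 then s + max (-s) (min (F.f z) 0) else if 0 < F.f z then s else 0 with hg
    refine ⟨g, fun z => ?_⟩
    have hval : (prymDivisor ι a - prymDivisor ι (xs s)) z =
        (if z = a then 1 else 0) - (if z = b then 1 else 0)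
          - ((if z = xs s then 1 else 0) - (if z = ι (xs s) then 1 else 0)) := by
      simp only [Pi.sub_apply, prymDivisor, pt, hb]
    by_cases hza : dist z a < r0
    · -- near `a`
      obtain ⟨δ, hδ, e1, e2⟩ := clamp_local 0 s (F.f z) hs0
      obtain ⟨c, t, hc1, hc2⟩ := F.comp_chart z (fun v => max 0 (min v s)) _ _ δ hδ e1 e2 g
        (r0 - dist z a) (by linarith) (by
          intro w hw
          have hwa : dist w a < r0 := by
            have := dist_triangle w z a
            rw [mem_ball] at hw
            linarith
          simp only [hg]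
          rw [if_pos hwa])
      refine ⟨c, t, hc1, ?_⟩
      rw [← hc2, hval, (hA z hza).2.1, (hA z hza).2.2]
      have n1 : z ≠ b := by
        rintro rfl
        exact hdisj _ hza (by rw [dist_self]; exact hr0pos)
      have n2 : z ≠ ι (xs s) := by
        rintro rfl
        exact hdisj _ hza hyd
      rw [if_neg n1, if_neg n2]
      rcases lt_trichotomy (F.f z) 0 with k | k | k
      · have m1 : z ≠ a := by rintro rfl; linarith
        have m2 : z ≠ xs s := by rintro rfl; linarith
        rw [if_neg m1, if_neg m2, if_neg (by rintro ⟨k1, _⟩; linarith),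
          if_neg (by rintro ⟨k1, _⟩; linarith)]
        norm_num
      · have m1 : z = a := (hzA z hza).1 k
        have m2 : z ≠ xs s := by rintro rfl; linarith
        rw [if_pos m1, if_neg m2, k, if_pos ⟨le_rfl, hs0⟩,
          if_neg (by rintro ⟨k1, _⟩; linarith)]
        norm_num
      · have m1 : z ≠ a := by rintro rfl; linarith
        rw [if_neg m1]
        rcases lt_trichotomy (F.f z) s with l | l | l
        · have m2 : z ≠ xs s := by rintro rfl; linarith
          rw [if_neg m2, if_pos ⟨k.le, l⟩, if_pos ⟨k, l.le⟩]
          norm_num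
        · have m2 : z = xs s := (huniqA z hza).1 l
          rw [if_pos m2, if_neg (by rintro ⟨_, k1⟩; linarith), if_pos ⟨k, l.le⟩]
          norm_num
        · have m2 : z ≠ xs s := by rintro rfl; linarith
          rw [if_neg m2, if_neg (by rintro ⟨_, k1⟩; linarith),
            if_neg (by rintro ⟨_, k1⟩; linarith)]
          norm_num
    · by_cases hzb : dist z b < r0
      · -- near `b`
        obtain ⟨δ, hδ, e1, e2⟩ := clamp_local (-s) 0 (F.f z) (by linarith)
        obtain ⟨c, t, hc1, hc2⟩ := F.comp_chart z (fun v => s + max (-s) (min v 0))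
          (if -s ≤ F.f z ∧ F.f z < 0 then 1 else 0) (if -s < F.f z ∧ F.f z ≤ 0 then 1 else 0) δ hδ
          (fun w hw0 hw1 => by
            have := e1 w hw0 hw1
            change s + max (-s) (min (F.f z + w) 0) = s + max (-s) (min (F.f z) 0) + _
            rw [this]; ring)
          (fun w hw0 hw1 => by
            have := e2 w hw0 hw1
            change s + max (-s) (min (F.f z - w) 0) = s + max (-s) (min (F.f z) 0) - _
            rw [this]; ring) g
          (r0 - dist z b) (by linarith) (by
            intro w hw
            have hwb : dist w b < r0 := by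
              have := dist_triangle w z b
              rw [mem_ball] at hw
              linarith
            have hwa : ¬ dist w a < r0 := fun hc => hdisj w hc hwb
            simp only [hg]
            rw [if_neg hwa, if_pos hwb])
        refine ⟨c, t, hc1, ?_⟩
        rw [← hc2, hval, (hB z hzb).2.1, (hB z hzb).2.2]
        have n1 : z ≠ a := by
          rintro rfl
          exact hza (by rw [dist_self]; exact hr0pos)
        have n2 : z ≠ xs s := by
          rintro rfl
          exact hza (by rw [hxd]; exact hs1)
        rw [if_neg n1, if_neg n2]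
        rcases lt_trichotomy (F.f z) (-s) with k | k | k
        · have m1 : z ≠ b := by rintro rfl; linarith
          have m2 : z ≠ ι (xs s) := by rintro rfl; linarith
          rw [if_neg m1, if_neg m2, if_neg (by rintro ⟨k1, _⟩; linarith),
            if_neg (by rintro ⟨k1, _⟩; linarith)]
          norm_num
        · have m1 : z ≠ b := by rintro rfl; linarith
          have m2 : z = ι (xs s) := (huniqB z hzb).1 k
          rw [if_neg m1, if_pos m2, k, if_pos ⟨le_rfl, by linarith⟩,
            if_neg (by rintro ⟨k1, _⟩; linarith)]
          norm_num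
        · have m2 : z ≠ ι (xs s) := by rintro rfl; linarith
          rw [if_neg m2]
          rcases lt_trichotomy (F.f z) 0 with l | l | l
          · have m1 : z ≠ b := by rintro rfl; linarith
            rw [if_neg m1, if_pos ⟨k.le, l⟩, if_pos ⟨k, l.le⟩]
            norm_num
          · have m1 : z = b := (hzB z hzb).1 l
            rw [if_pos m1, if_neg (by rintro ⟨_, k1⟩; linarith), if_pos ⟨k, l.le⟩]
            norm_num
          · have m1 : z ≠ b := by rintro rfl; linarith
            rw [if_neg m1, if_neg (by rintro ⟨_, k1⟩; linarith),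
              if_neg (by rintro ⟨_, k1⟩; linarith)]
            norm_num
      · -- far from both points
        have n1 : z ≠ a := by
          rintro rfl
          exact hza (by rw [dist_self]; exact hr0pos)
        have n2 : z ≠ b := by
          rintro rfl
          exact hzb (by rw [dist_self]; exact hr0pos)
        have n3 : z ≠ xs s := by
          rintro rfl
          exact hza (by rw [hxd]; exact hs1)
        have n4 : z ≠ ι (xs s) := by
          rintro rfl
          exact hzb hyd
        have hfz : F.f z ≠ 0 := by
          intro hc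
          rcases hzero z hc with h5 | h5
          · exact n1 h5
          · exact n2 h5
        push Not at hza hzb
        -- the function `g` is constant near `z`
        have hconst : ∃ ε > 0, ∀ w ∈ ball z ε, g w = if 0 < F.f z then s else 0 := by
          rcases lt_or_gt_of_ne hfz with k | k
          · have hO : IsOpen {y | F.f y < 0} := isOpen_lt F.continuous continuous_const
            obtain ⟨ε, hε, hbb⟩ := Metric.isOpen_iff.1 hO z k
            refine ⟨min ε (r0 - s), lt_min hε (by linarith), fun w hw => ?_⟩
            have hw1 : F.f w < 0 := hbb (ball_subset_ball (min_le_left _ _) hw)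
            have hw2 : dist w z < r0 - s := ball_subset_ball (min_le_right _ _) hw
            rw [if_neg (not_lt.2 k.le)]
            simp only [hg]
            by_cases hwa : dist w a < r0
            · rw [if_pos hwa, min_eq_left (by linarith), max_eq_left hw1.le]
            · rw [if_neg hwa]
              by_cases hwb : dist w b < r0
              · have h5 := (hB w hwb).1
                rw [abs_of_neg hw1] at h5
                have h6 := dist_triangle z w b
                rw [dist_comm z w] at h6
                rw [if_pos hwb, min_eq_left hw1.le, max_eq_left (by linarith)]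
                ring
              · rw [if_neg hwb, if_neg (not_lt.2 hw1.le)]
          · have hO : IsOpen {y | 0 < F.f y} := isOpen_lt continuous_const F.continuous
            obtain ⟨ε, hε, hbb⟩ := Metric.isOpen_iff.1 hO z k
            refine ⟨min ε (r0 - s), lt_min hε (by linarith), fun w hw => ?_⟩
            have hw1 : 0 < F.f w := hbb (ball_subset_ball (min_le_left _ _) hw)
            have hw2 : dist w z < r0 - s := ball_subset_ball (min_le_right _ _) hw
            rw [if_pos k]
            simp only [hg]
            by_cases hwa : dist w a < r0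
            · have h5 := (hA w hwa).1
              rw [abs_of_pos hw1] at h5
              have h6 := dist_triangle z w a
              rw [dist_comm z w] at h6
              rw [if_pos hwa, min_eq_right (by linarith), max_eq_right hs0.le]
            · rw [if_neg hwa]
              by_cases hwb : dist w b < r0
              · rw [if_pos hwb, min_eq_right hw1.le, max_eq_right (by linarith)]
                ring
              · rw [if_neg hwb, if_pos hw1]
        obtain ⟨ε, hε, hgε⟩ := hconst
        obtain ⟨c, t, hc1, hc2⟩ := F.comp_chart z (fun _ => if 0 < F.f z then s else 0) 0 0 1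
          one_pos (fun w _ _ => by simp) (fun w _ _ => by simp) g ε hε hgε
        refine ⟨c, t, hc1, ?_⟩
        rw [← hc2, hval, if_neg n1, if_neg n2, if_neg n3, if_neg n4]
        norm_num
  have hinf : (Ioo 0 r0).Infinite := Ioo_infinite hr0pos
  refine Set.infinite_of_injOn_mapsTo (f := xs) ?_ (fun s hs => main s hs) hinf
  intro s hs t ht hst
  have e1 := hxs_dist s hs
  have e2 := hxs_dist t ht
  rw [hst] at e1
  linarith

/-- Over a 2-connected metric graph, a finite Abel-Prym map of degree one is injective. -/
theorem abelPrym_injective [CompactSpace X] [ConnectedSpace X] (h : IsFreeDoubleCover π ι)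
    (h2 : TwoConnected Y) (hfin : AbelPrymFinite ι) : AbelPrymInjective ι := by
  intro p q hpq
  by_contra hne
  obtain ⟨f, hf⟩ := hpq
  have hpt : ∀ p x, pt p (ι x) = pt (ι p) x := by
    intro p x
    unfold pt
    by_cases hx : ι x = p
    · rw [if_pos hx, if_pos (by rw [← hx, h.invol])]
    · rw [if_neg hx, if_neg (by rintro rfl; exact hx (h.invol p))]
  have hD : ∀ x, (prymDivisor ι p - prymDivisor ι q) (ι x) =
      - (prymDivisor ι p - prymDivisor ι q) x := by
    intro x
    simp only [Pi.sub_apply, prymDivisor, hpt, h.invol]
    ring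
  obtain ⟨F, hodd, hFD⟩ := h.exists_odd hf hD
  obtain ⟨hpos, hN2, hbal, a, ha, hUa, hUL⟩ := exists_zero_pair h F hodd hne
    (fun x => by rw [hFD]; simp only [Pi.sub_apply, prymDivisor])
  have hzero := zero_level_eq h h2 F hodd hpos ha hUL
  obtain ⟨hU1, hL1⟩ := zero_pair_valence h F hodd ha hUa hN2 hzero
  exact infinite_fibre h F hodd ha hU1 hL1 hzero (hfin a)

end Pool.Agent.AbelPrym
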